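import Pool.Agent.H31.DG.Blk

set_option autoImplicit false

/-! # The average of the singular series over pairs of residues -/

namespace Pool.Agent.H31.DG

open Finset Filter Topology Pool.Agent.H373R2.T7 Pool.Agent.H31.MF

/-- the number of the elements of a residue class -/
lemma card_class_le (B l r : ℕ) (hl : 1 ≤ l) (hlB : l ≤ B) :
    (((range B).filter (fun n => n ≡ r [MOD l])).card : ℝ) ≤ 2 * B / l := by
  have h1 := (abs_le.1 (cnt_mod0 B l r hl)).2
  have hl0 : (0 : ℝ) < l := by exact_mod_cast hl
  have h2 : (1 : ℝ) ≤ B / l := by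
    rw [one_le_div hl0]; exact_mod_cast hlB
  have e : 2 * (B : ℝ) / l = B / l + B / l := by ring
  rw [e]
  linarith

/-- for a prime `l` which does not divide `T`, the bad pairs lie in three residue classes -/
lemma bad_classes (T B l b : ℕ) (hl : l.Prime) (hT : ¬ l ∣ T) (hlB : l ≤ B) :
    (((range B).filter (fun b' => BadS (T * b) (T * b') l)).card : ℝ) ≤ 6 * B / l := by
  classical
  have := Fact.mk hl
  have hT' : (T : ZMod l) ≠ 0 := by
    rw [Ne, ZMod.natCast_eq_zero_iff]; exact hT
  have key : ∃ r1 r2 r3 : ℕ, ∀ b' : ℕ, BadS (T * b) (T * b') l → b' ≡ r1 [MOD l] ∨ b' ≡ r2 [MOD l] ∨ b' ≡ r3 [MOD l] := by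
    by_cases hex : ∃ x : ZMod l, x ^ 2 + 4 = 0
    · obtain ⟨x, hx⟩ := hex
      refine ⟨b, ((b : ZMod l) - x / T).val, ((b : ZMod l) + x / T).val, fun b' hb => ?_⟩
      unfold BadS at hb
      rw [← ZMod.intCast_zmod_eq_zero_iff_dvd] at hb
      push_cast at hb
      rcases mul_eq_zero.1 hb with h | h
      · left
        have h1 : (T : ZMod l) * ((b : ZMod l) - b') = 0 := by rw [← h]; ring
        have h2 := (mul_eq_zero.1 h1).resolve_left hT'
        have h3 : (b' : ZMod l) = (b : ZMod l) := (sub_eq_zero.1 h2).symm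
        exact (ZMod.natCast_eq_natCast_iff _ _ _).1 h3
      · right
        have h1 : ((T : ZMod l) * b - T * b' - x) * ((T : ZMod l) * b - T * b' + x) = 0 := by
          have : ((T : ZMod l) * b - T * b' - x) * ((T : ZMod l) * b - T * b' + x) =
            (((T : ZMod l) * b - T * b') ^ 2 + 4) - (x ^ 2 + 4) := by ring
          rw [this, h, hx, sub_zero]
        rcases mul_eq_zero.1 h1 with h2 | h2
        · left
          apply (ZMod.natCast_eq_natCast_iff _ _ _).1
          rw [ZMod.natCast_zmod_val]
          field_simp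
          linear_combination -h2
        · right
          apply (ZMod.natCast_eq_natCast_iff _ _ _).1
          rw [ZMod.natCast_zmod_val]
          field_simp
          linear_combination -h2
    · refine ⟨b, b, b, fun b' hb => ?_⟩
      left
      unfold BadS at hb
      rw [← ZMod.intCast_zmod_eq_zero_iff_dvd] at hb
      push_cast at hb
      rcases mul_eq_zero.1 hb with h | h
      · have h1 : (T : ZMod l) * ((b : ZMod l) - b') = 0 := by rw [← h]; ring
        have h2 := (mul_eq_zero.1 h1).resolve_left hT'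
        have h3 : (b' : ZMod l) = (b : ZMod l) := (sub_eq_zero.1 h2).symm
        exact (ZMod.natCast_eq_natCast_iff _ _ _).1 h3
      · exact absurd ⟨_, h⟩ hex
  obtain ⟨r1, r2, r3, hr⟩ := key
  have hsub : (range B).filter (fun b' => BadS (T * b) (T * b') l) ⊆
      (range B).filter (fun n => n ≡ r1 [MOD l]) ∪ ((range B).filter (fun n => n ≡ r2 [MOD l]) ∪ (range B).filter (fun n => n ≡ r3 [MOD l])) := by
    intro n hn
    rw [mem_filter] at hn
    simp only [mem_union, mem_filter]
    rcases hr n hn.2 with h | h | h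
    · exact Or.inl ⟨hn.1, h⟩
    · exact Or.inr (Or.inl ⟨hn.1, h⟩)
    · exact Or.inr (Or.inr ⟨hn.1, h⟩)
  have h1 : ((range B).filter (fun b' => BadS (T * b) (T * b') l)).card ≤
      ((range B).filter (fun n => n ≡ r1 [MOD l])).card + (((range B).filter (fun n => n ≡ r2 [MOD l])).card + ((range B).filter (fun n => n ≡ r3 [MOD l])).card) :=
    (card_le_card hsub).trans ((card_union_le _ _).trans (Nat.add_le_add_left (card_union_le _ _) _))
  have h2 : (((range B).filter (fun b' => BadS (T * b) (T * b') l)).card : ℝ) ≤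
      (((range B).filter (fun n => n ≡ r1 [MOD l])).card : ℝ) + ((((range B).filter (fun n => n ≡ r2 [MOD l])).card : ℝ) + (((range B).filter (fun n => n ≡ r3 [MOD l])).card : ℝ)) := by
    exact_mod_cast h1
  have g1 := card_class_le B l r1 hl.one_lt.le hlB
  have g2 := card_class_le B l r2 hl.one_lt.le hlB
  have g3 := card_class_le B l r3 hl.one_lt.le hlB
  have e : 6 * (B : ℝ) / l = 2 * B / l + (2 * B / l + 2 * B / l) := by ring
  rw [e]
  linarith

/-- the large bad primes -/
lemma bad_large (T B N w y b b' : ℕ) (hT : 1 ≤ T) (hTB : T * B ≤ N) (hN : 2 ≤ N) (hb : b < B) (hb' : b' < B) (hbb : b ≠ b') (hB : 1 ≤ B) :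
    ∑ l ∈ ((mid w y).filter (fun l => BadS (T * b) (T * b') l)).filter (fun l => ¬ l ≤ B), 1 / Real.sqrt l ≤
      (Nat.log 2 (N ^ 4) : ℝ) / Real.sqrt B := by
  classical
  set d := (b - b') + (b' - b) with hd
  have hd0 : 1 ≤ d := by omega
  have hdB : d ≤ B := by omega
  set n := (T * d) * ((T * d) ^ 2 + 4) with hn
  have hTd : 1 ≤ T * d := Nat.mul_pos hT hd0
  have hn0 : n ≠ 0 := by
    rw [hn]
    have : 0 < (T * d) * ((T * d) ^ 2 + 4) := Nat.mul_pos hTd (by positivity)
    omega
  have hnN : n ≤ N ^ 4 := by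
    have h1 : T * d ≤ N := (Nat.mul_le_mul_left T hdB).trans hTB
    have h2 : n ≤ N * (N ^ 2 + 4) := by
      rw [hn]
      exact Nat.mul_le_mul h1 (Nat.add_le_add_right (Nat.pow_le_pow_left h1 2) 4)
    refine h2.trans ?_
    have h3 : N * (N ^ 2 + 4) ≤ N * N ^ 3 := by
      apply Nat.mul_le_mul_left
      have : N ^ 3 = N * N ^ 2 := by ring
      nlinarith
    refine h3.trans (le_of_eq (by ring))
  have hcard : (((mid w y).filter (fun l => BadS (T * b) (T * b') l)).filter (fun l => ¬ l ≤ B)).card ≤ Nat.log 2 (N ^ 4) := by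
    have h1 : ((mid w y).filter (fun l => BadS (T * b) (T * b') l)).filter (fun l => ¬ l ≤ B) ⊆ n.primeFactors := by
      intro l hl
      rw [mem_filter, mem_filter, mem_mid] at hl
      obtain ⟨⟨⟨hlp, hl1, hl2⟩, hbad⟩, hlT⟩ := hl
      rw [Nat.mem_primeFactors]
      refine ⟨hlp, ?_, hn0⟩
      unfold BadS at hbad
      have h3 : ((n : ℕ) : ℤ) = (((T * b : ℕ) : ℤ) - ((T * b' : ℕ) : ℤ)) * ((((T * b : ℕ) : ℤ) - ((T * b' : ℕ) : ℤ)) ^ 2 + 4) ∨
          ((n : ℕ) : ℤ) = -((((T * b : ℕ) : ℤ) - ((T * b' : ℕ) : ℤ)) * ((((T * b : ℕ) : ℤ) - ((T * b' : ℕ) : ℤ)) ^ 2 + 4)) := by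
        rcases le_total b b' with h | h
        · right
          have e1 : (d : ℤ) = (b' : ℤ) - b := by
            rw [hd, Nat.sub_eq_zero_of_le h, zero_add]
            exact Nat.cast_sub h
          rw [hn]
          push_cast
          rw [e1]
          ring
        · left
          have e1 : (d : ℤ) = (b : ℤ) - b' := by
            rw [hd, Nat.sub_eq_zero_of_le h, add_zero]
            exact Nat.cast_sub h
          rw [hn]
          push_cast
          rw [e1]
          ring
      have h4 : (l : ℤ) ∣ ((n : ℕ) : ℤ) := by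
        rcases h3 with h3 | h3
        · rw [h3]; exact hbad
        · rw [h3]; exact hbad.neg_right
      exact_mod_cast h4
    exact (card_le_card h1).trans ((card_pf_le n hn0).trans (Nat.log_mono_right hnN))
  have hB0 : (0 : ℝ) < B := by exact_mod_cast hB
  calc ∑ l ∈ ((mid w y).filter (fun l => BadS (T * b) (T * b') l)).filter (fun l => ¬ l ≤ B), 1 / Real.sqrt l
      ≤ ∑ _l ∈ ((mid w y).filter (fun l => BadS (T * b) (T * b') l)).filter (fun l => ¬ l ≤ B), 1 / Real.sqrt (B : ℝ) := by
        apply sum_le_sum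
        intro l hl
        rw [mem_filter] at hl
        have h1 : B ≤ l := by omega
        apply one_div_le_one_div_of_le (Real.sqrt_pos.2 hB0)
        apply Real.sqrt_le_sqrt
        exact_mod_cast h1
    _ = ((((mid w y).filter (fun l => BadS (T * b) (T * b') l)).filter (fun l => ¬ l ≤ B)).card : ℝ) * (1 / Real.sqrt (B : ℝ)) := by
        rw [sum_const, nsmul_eq_mul]
    _ ≤ (Nat.log 2 (N ^ 4) : ℝ) * (1 / Real.sqrt (B : ℝ)) := by
        apply mul_le_mul_of_nonneg_right _ (by positivity)
        exact_mod_cast hcard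
    _ = _ := by ring

theorem avgS : ∃ C : ℝ, 0 < C ∧ ∀ T B N w y : ℕ, 1 ≤ T → 1 ≤ B → T * B ≤ N → 2 ≤ N → 4 ≤ w → (∀ l : ℕ, l.Prime → l ∣ T → l ≤ w) →
    ∑ b ∈ range B, ∑ b' ∈ (range B).filter (fun b' => b ≠ b'), (Real.exp (hT (T * b) (T * b') w y) - 1) ≤
      C * B ^ 2 * (1 / Real.sqrt w + (Nat.log 2 (N ^ 4) : ℝ) / Real.sqrt B) := by
  classical
  obtain ⟨C1, hC1, h1⟩ := exp_sum_le
  refine ⟨C1 * 12, by positivity, fun T B N w y hT1 hB hTB hN hw hTw => ?_⟩
  set E : ℝ := (Nat.log 2 (N ^ 4) : ℝ) / Real.sqrt B with hE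
  have hE0 : 0 ≤ E := by positivity
  have hB0 : (0 : ℝ) < B := by exact_mod_cast hB
  -- one pair
  have hone : ∀ b ∈ range B, ∀ b' ∈ (range B).filter (fun b' => b ≠ b'), Real.exp (hT (T * b) (T * b') w y) - 1 ≤
      C1 * ((∑ l ∈ (mid w B), (1 / Real.sqrt l) * (if BadS (T * b) (T * b') l then 1 else 0)) + E) := by
    intro b hb b' hb'
    rw [mem_filter, mem_range] at hb'
    rw [mem_range] at hb
    have g1 := h1 ((mid w y).filter (fun l => BadS (T * b) (T * b') l)) (fun p hp => (mem_mid.1 (mem_filter.1 hp).1).1)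
    refine g1.trans (mul_le_mul_of_nonneg_left ?_ hC1.le)
    rw [← sum_filter_add_sum_filter_not _ (fun l => l ≤ B)]
    apply add_le_add
    · calc ∑ l ∈ ((mid w y).filter (fun l => BadS (T * b) (T * b') l)).filter (fun l => l ≤ B), 1 / Real.sqrt l
          = ∑ l ∈ ((mid w y).filter (fun l => BadS (T * b) (T * b') l)).filter (fun l => l ≤ B), (1 / Real.sqrt l) * (if BadS (T * b) (T * b') l then 1 else 0) := by
            apply sum_congr rfl
            intro l hl
            rw [mem_filter, mem_filter] at hl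
            rw [if_pos hl.1.2, mul_one]
        _ ≤ _ := by
            apply sum_le_sum_of_subset_of_nonneg
            · intro l hl
              rw [mem_filter, mem_filter, mem_mid] at hl
              rw [mem_mid]
              exact ⟨hl.1.1.1, hl.1.1.2.1, hl.2⟩
            · intro l _ _
              apply mul_nonneg (by positivity)
              split_ifs <;> norm_num
    · exact bad_large T B N w y b b' hT1 hTB hN hb hb'.1 hb'.2 hB
  calc ∑ b ∈ range B, ∑ b' ∈ (range B).filter (fun b' => b ≠ b'), (Real.exp (hT (T * b) (T * b') w y) - 1)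
      ≤ ∑ b ∈ range B, ∑ b' ∈ (range B).filter (fun b' => b ≠ b'), C1 * ((∑ l ∈ (mid w B), (1 / Real.sqrt l) * (if BadS (T * b) (T * b') l then 1 else 0)) + E) :=
        sum_le_sum fun a ha => sum_le_sum fun b hb => hone a ha b hb
    _ ≤ ∑ b ∈ range B, ∑ b' ∈ range B, C1 * ((∑ l ∈ (mid w B), (1 / Real.sqrt l) * (if BadS (T * b) (T * b') l then 1 else 0)) + E) := by
        apply sum_le_sum
        intro a _
        apply sum_le_sum_of_subset_of_nonneg (filter_subset _ _)
        intro b _ _
        apply mul_nonneg hC1.le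
        apply add_nonneg _ hE0
        apply sum_nonneg
        intro l _
        apply mul_nonneg (by positivity)
        split_ifs <;> norm_num
    _ = C1 * ((∑ b ∈ range B, ∑ l ∈ mid w B, (1 / Real.sqrt l) * (((range B).filter (fun b' => BadS (T * b) (T * b') l)).card : ℝ)) + B * B * E) := by
        simp only [← mul_sum, sum_add_distrib, sum_const, nsmul_eq_mul, card_range]
        congr 1
        congr 1
        · apply sum_congr rfl
          intro b _
          rw [sum_comm]
          apply sum_congr rfl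
          intro l _
          rw [card_filter, ← mul_sum]
          push_cast
          rfl
        · ring
    _ ≤ C1 * ((∑ b ∈ range B, ∑ l ∈ mid w B, (6 * B) * (1 / ((l : ℝ) * Real.sqrt l))) + B * B * E) := by
        apply mul_le_mul_of_nonneg_left _ hC1.le
        apply add_le_add _ le_rfl
        apply sum_le_sum
        intro b _
        apply sum_le_sum
        intro l hl
        obtain ⟨hlp, hl1, hl2⟩ := mem_mid.1 hl
        have k1 := bad_classes T B l b hlp (fun h => by have := hTw l hlp h; omega) hl2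
        have hl0 : (0 : ℝ) < l := by exact_mod_cast hlp.pos
        have hs0 : 0 < Real.sqrt l := Real.sqrt_pos.2 hl0
        calc (1 / Real.sqrt l) * (((range B).filter (fun b' => BadS (T * b) (T * b') l)).card : ℝ)
            ≤ (1 / Real.sqrt l) * (6 * B / l) := mul_le_mul_of_nonneg_left k1 (by positivity)
          _ = _ := by field_simp
    _ ≤ C1 * ((∑ b ∈ range B, (6 * B) * (2 / Real.sqrt w)) + B * B * E) := by
        apply mul_le_mul_of_nonneg_left _ hC1.le
        apply add_le_add _ le_rfl
        apply sum_le_sum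
        intro b _
        rw [← mul_sum]
        apply mul_le_mul_of_nonneg_left _ (by positivity)
        refine le_trans ?_ (sum_three_half w B (by omega))
        apply sum_le_sum_of_subset_of_nonneg
        · intro l hl
          rw [mem_mid] at hl
          rw [mem_Ioc]
          exact hl.2
        · intro _ _ _; positivity
    _ = C1 * (B ^ 2 * (12 * (1 / Real.sqrt w) + E)) := by
        rw [sum_const, nsmul_eq_mul, card_range]
        ring
    _ ≤ C1 * (B ^ 2 * (12 * (1 / Real.sqrt w) + 12 * E)) := by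
        apply mul_le_mul_of_nonneg_left _ hC1.le
        apply mul_le_mul_of_nonneg_left _ (by positivity)
        linarith
    _ = _ := by ring

end Pool.Agent.H31.DG
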