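import Pool.Agent.H31.MF.Liou

set_option autoImplicit false

/-! # The fundamental lemma for intervals with an additive error, and shifted roots -/

namespace Pool.Agent.H31.DG

open Finset Filter Topology Pool.Agent.H373R2.T7 Pool.Agent.H31.MF

open Classical in
/-- the number of the `m < M` which avoid all the classes -/
noncomputable def cnt0 (Q : ℕ → ℕ → Prop) (y M : ℕ) : ℕ := ((range M).filter (fun n => ∀ p ∈ pz y, ¬ Q p n)).card

lemma cnt_mod0 (M d r : ℕ) (hd : 1 ≤ d) :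
    |(((range M).filter (fun n => n ≡ r [MOD d])).card : ℝ) - (M : ℝ) / d| ≤ 1 := by
  have h := cnt_mod M d (r + 1) hd
  have e : ((range M).filter (fun n => n ≡ r [MOD d])).card = ((Icc 1 M).filter (fun n => n ≡ r + 1 [MOD d])).card := by
    apply card_nbij' (fun n => n + 1) (fun n => n - 1)
    · intro n hn
      rw [mem_coe, mem_filter, mem_range] at hn
      rw [mem_coe, mem_filter, mem_Icc]
      beta_reduce
      exact ⟨⟨by omega, by omega⟩, Nat.ModEq.add_right 1 hn.2⟩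
    · intro n hn
      rw [mem_coe, mem_filter, mem_Icc] at hn
      rw [mem_coe, mem_filter, mem_range]
      beta_reduce
      refine ⟨by omega, ?_⟩
      have h1 : n - 1 + 1 = n := by omega
      apply Nat.ModEq.add_right_cancel' 1
      rw [h1]
      exact hn.2
    · intro n _; simp
    · intro n hn
      rw [mem_coe, mem_filter, mem_Icc] at hn
      simp only
      omega
  rw [e]
  exact h

lemma Prd_nonneg (Q : ℕ → ℕ → Prop) (y : ℕ) : 0 ≤ Prd Q y := by
  unfold Prd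
  apply prod_nonneg
  intro p hp
  have hp0 : (0 : ℝ) < p := by exact_mod_cast (mem_pz.1 hp).2.pos
  have h1 : (nuB Q p : ℝ) / p ≤ 1 := by rw [div_le_one hp0]; exact_mod_cast nuB_le Q p
  linarith

/-- the fundamental lemma holds for `y` with the relative error `ε` for all `M ≥ N ^ (1 / 4)` -/
def FL2 (N y : ℕ) (ε : ℝ) : Prop := ∀ Q : ℕ → ℕ → Prop, PerB Q 4 → ∀ M : ℕ, N ≤ M ^ 4 →
  |(cnt0 Q y M : ℝ) - M * Prd Q y| ≤ ε * (M * Prd Q y) + ε * (M / (y : ℝ) ^ 16)

/-- **The fundamental lemma for intervals** -/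
theorem fl2 (ε : ℝ) (hε : 0 < ε) : ∃ r : ℕ, 1 ≤ r ∧ ∀ᶠ N : ℕ in atTop, ∀ y : ℕ, 2 ≤ y → y ^ r ≤ N → FL2 N y ε := by
  classical
  obtain ⟨K, K0, hK, hK0, hg⟩ := Pool.Agent.X55.Pal.gen 4 (by norm_num) ε hε
  obtain ⟨C, hC⟩ := exists_nat_ge (2 * (K0 : ℝ) ^ 4 / ε)
  refine ⟨8 * (3 * K + 17), by omega, ?_⟩
  filter_upwards [eventually_ge_atTop (C ^ 8)] with N hN y hy hyN Q hQ M hM
  have h1 := hg 1 y hy (range M) M (fun _ => 1) (Nat.cast_nonneg _) (fun _ => zero_le_one)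
    (fun d hd _ _ r => cnt_mod0 M d r hd) Q hQ
  have e1 : (range M).filter (fun n => ∀ p ∈ pz y, ¬ p ∣ 1 → ¬ Q p n) = (range M).filter (fun n => ∀ p ∈ pz y, ¬ Q p n) := by
    apply filter_congr
    intro n _
    constructor
    · intro h p hp
      exact h p hp (fun h1 => (mem_pz.1 hp).2.one_lt.ne' (Nat.dvd_one.1 h1))
    · intro h p hp _
      exact h p hp
  have e2 : (pz y).filter (fun p => ¬ p ∣ 1) = pz y := by
    apply filter_true_of_mem
    intro p hp h1
    exact (mem_pz.1 hp).2.one_lt.ne' (Nat.dvd_one.1 h1)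
  rw [e1, e2] at h1
  unfold cnt0
  unfold Prd
  refine h1.trans ?_
  apply add_le_add le_rfl
  have hy0 : (0 : ℝ) < y := by exact_mod_cast (by omega : 0 < y)
  have hK0r : (1 : ℝ) ≤ K0 := by exact_mod_cast hK0
  -- the error
  have h2 : ((JJ y : ℝ) + 2) ≤ 2 * y := by
    rcases Nat.lt_or_ge y 3 with h | h
    · have : y = 2 := by omega
      subst this
      have : JJ 2 = 1 := by unfold JJ; norm_num
      rw [this]; norm_num
    · exact_mod_cast JJ_small y h
  have h3 : ∑ d ∈ (Icc 1 (K0 * y ^ K)).filter (fun d => d.Coprime 1), ((4 : ℕ) : ℝ) ^ d.primeFactors.card * (1 : ℝ) ≤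
      ((K0 : ℝ) * y ^ K) ^ 3 := by
    calc ∑ d ∈ (Icc 1 (K0 * y ^ K)).filter (fun d => d.Coprime 1), ((4 : ℕ) : ℝ) ^ d.primeFactors.card * (1 : ℝ)
        ≤ ∑ d ∈ (Icc 1 (K0 * y ^ K)), ((4 : ℕ) : ℝ) ^ d.primeFactors.card * (1 : ℝ) :=
          sum_le_sum_of_subset_of_nonneg (filter_subset _ _) (fun _ _ _ => by positivity)
      _ ≤ ∑ d ∈ (Icc 1 (K0 * y ^ K)), ((K0 : ℝ) * y ^ K) ^ 2 := by
          apply sum_le_sum
          intro d hd
          rw [mem_Icc] at hd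
          have h4 := four_pow_le d hd.1
          have h5 : (d : ℝ) ≤ (K0 : ℝ) * y ^ K := by exact_mod_cast hd.2
          rw [mul_one]
          push_cast
          exact h4.trans (pow_le_pow_left₀ (Nat.cast_nonneg _) h5 2)
      _ = ((K0 : ℝ) * y ^ K) ^ 3 := by
          rw [sum_const, Nat.card_Icc, nsmul_eq_mul, Nat.add_sub_cancel]
          push_cast
          ring
  have h4 : ((JJ y : ℝ) + 2) * ((K0 : ℝ) * ∑ d ∈ (Icc 1 (K0 * y ^ K)).filter (fun d => d.Coprime 1), ((4 : ℕ) : ℝ) ^ d.primeFactors.card * (1 : ℝ)) ≤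
      2 * (K0 : ℝ) ^ 4 * (y : ℝ) ^ (3 * K + 1) := by
    calc _ ≤ (2 * (y : ℝ)) * ((K0 : ℝ) * ((K0 : ℝ) * y ^ K) ^ 3) := by
          apply mul_le_mul h2 _ (by positivity) (by positivity)
          exact mul_le_mul_of_nonneg_left h3 (by positivity)
      _ = _ := by ring
  have h5 : (C : ℝ) * (y : ℝ) ^ (3 * K + 17) ≤ M := by
    have h6 : (C * y ^ (3 * K + 17)) ^ 8 ≤ M ^ 8 := by
      calc (C * y ^ (3 * K + 17)) ^ 8 = C ^ 8 * y ^ (8 * (3 * K + 17)) := by rw [mul_pow, ← pow_mul, mul_comm (3 * K + 17) 8]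
        _ ≤ N * N := Nat.mul_le_mul hN hyN
        _ ≤ M ^ 4 * M ^ 4 := Nat.mul_le_mul hM hM
        _ = M ^ 8 := by ring
    have h7 : C * y ^ (3 * K + 17) ≤ M := by
      by_contra h
      push Not at h
      have := Nat.pow_lt_pow_left h (show 8 ≠ 0 by norm_num)
      omega
    exact_mod_cast h7
  have h6 : 2 * (K0 : ℝ) ^ 4 * (y : ℝ) ^ (3 * K + 1) ≤ ε * (M / (y : ℝ) ^ 16) := by
    have h7 : 2 * (K0 : ℝ) ^ 4 ≤ C * ε := by
      rwa [div_le_iff₀ hε] at hC
    rw [mul_div_assoc', le_div_iff₀ (by positivity)]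
    calc 2 * (K0 : ℝ) ^ 4 * (y : ℝ) ^ (3 * K + 1) * (y : ℝ) ^ 16 = (2 * (K0 : ℝ) ^ 4) * (y : ℝ) ^ (3 * K + 17) := by ring
      _ ≤ (C * ε) * (y : ℝ) ^ (3 * K + 17) := mul_le_mul_of_nonneg_right h7 (by positivity)
      _ = ε * (C * (y : ℝ) ^ (3 * K + 17)) := by ring
      _ ≤ ε * M := mul_le_mul_of_nonneg_left h5 hε.le
  exact h4.trans h6

/-- shifted roots -/
def ZS (c p : ℕ) : Finset ℕ := (range p).filter (fun a => p ∣ (a + c) ^ 2 + 1)

lemma mem_ZS {c p a : ℕ} : a ∈ ZS c p ↔ a < p ∧ p ∣ (a + c) ^ 2 + 1 := by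
  unfold ZS; rw [mem_filter, mem_range]

lemma dvds_iff (c p a : ℕ) : p ∣ (a + c) ^ 2 + 1 ↔ ((a : ZMod p) + c) ^ 2 + 1 = 0 := by
  rw [← ZMod.natCast_eq_zero_iff]; push_cast; rfl

lemma dvds_mod (c p a : ℕ) : p ∣ (a + c) ^ 2 + 1 ↔ p ∣ (a % p + c) ^ 2 + 1 := by
  rw [dvds_iff, dvds_iff, ZMod.natCast_mod]

lemma ZS_card (c p : ℕ) (hp : p.Prime) : (ZS c p).card = (Z 1 p).card := by
  have := Fact.mk hp
  refine card_nbij' (fun a => ((a : ZMod p) + c).val) (fun a => ((a : ZMod p) - c).val) ?_ ?_ ?_ ?_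
  · intro n hn
    rw [mem_coe, mem_ZS] at hn
    rw [mem_coe, mem_Z]
    refine ⟨ZMod.val_lt _, ?_⟩
    rw [dvd_iff, ZMod.natCast_zmod_val, Nat.cast_one, one_mul]
    exact (dvds_iff c p n).1 hn.2
  · intro n hn
    rw [mem_coe, mem_Z] at hn
    rw [mem_coe, mem_ZS]
    refine ⟨ZMod.val_lt _, ?_⟩
    rw [dvds_iff, ZMod.natCast_zmod_val, sub_add_cancel]
    have := (dvd_iff 1 p n).1 hn.2
    rwa [Nat.cast_one, one_mul] at this
  · intro n hn
    rw [mem_coe, mem_ZS] at hn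
    simp only [ZMod.natCast_zmod_val]
    rw [add_sub_cancel_right, ZMod.val_natCast, Nat.mod_eq_of_lt hn.1]
  · intro n hn
    rw [mem_coe, mem_Z] at hn
    simp only [ZMod.natCast_zmod_val]
    rw [sub_add_cancel, ZMod.val_natCast, Nat.mod_eq_of_lt hn.1]

/-- the bad primes -/
def BadS (c d p : ℕ) : Prop := (p : ℤ) ∣ ((c : ℤ) - d) * (((c : ℤ) - d) ^ 2 + 4)

instance (c d p : ℕ) : Decidable (BadS c d p) := by unfold BadS; infer_instance

lemma ZS_disj (c d p : ℕ) (hp : p.Prime) (h : ¬ BadS c d p) : Disjoint (ZS c p) (ZS d p) := by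
  have := Fact.mk hp
  rw [disjoint_left]
  intro a ha ha'
  rw [mem_ZS] at ha ha'
  have h1 := (dvds_iff c p a).1 ha.2
  have h2 := (dvds_iff d p a).1 ha'.2
  apply h
  unfold BadS
  rw [← ZMod.intCast_zmod_eq_zero_iff_dvd]
  push_cast
  set x : ZMod p := (a : ZMod p) + c
  set x' : ZMod p := (a : ZMod p) + d
  have e : (c : ZMod p) - d = x - x' := by simp only [x, x']; ring
  rw [e]
  have h3 : (x - x') * (x + x') = 0 := by
    have : (x - x') * (x + x') = (x ^ 2 + 1) - (x' ^ 2 + 1) := by ring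
    rw [this, h1, h2, sub_zero]
  rcases mul_eq_zero.1 h3 with h4 | h4
  · rw [h4, zero_mul]
  · have h5 : x' = -x := by
      have : x' = -x + (x + x') := by ring
      rw [this, h4, add_zero]
    have h6 : (x - x') ^ 2 + 4 = 4 * (x ^ 2 + 1) := by rw [h5]; ring
    rw [h6, h1, mul_zero, mul_zero]

def QS (c d y₁ y₂ : ℕ) : ℕ → ℕ → Prop := fun p a => (p ≤ y₁ ∧ p ∣ (a + c) ^ 2 + 1) ∨ (p ≤ y₂ ∧ p ∣ (a + d) ^ 2 + 1)

lemma nuS (c d y₁ y₂ p : ℕ) : nuB (QS c d y₁ y₂) p =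
    ((if p ≤ y₁ then ZS c p else ∅) ∪ (if p ≤ y₂ then ZS d p else ∅)).card := by
  classical
  unfold nuB
  congr 1
  ext n
  simp only [mem_filter, mem_range, mem_union]
  unfold QS
  constructor
  · rintro ⟨h1, h2 | h2⟩
    · left; rw [if_pos h2.1, mem_ZS]; exact ⟨h1, h2.2⟩
    · right; rw [if_pos h2.1, mem_ZS]; exact ⟨h1, h2.2⟩
  · rintro (h | h)
    · split_ifs at h with h3
      · rw [mem_ZS] at h
        exact ⟨h.1, Or.inl ⟨h3, h.2⟩⟩
      · simp at h
    · split_ifs at h with h3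
      · rw [mem_ZS] at h
        exact ⟨h.1, Or.inr ⟨h3, h.2⟩⟩
      · simp at h

lemma perS (c d y₁ y₂ : ℕ) : PerB (QS c d y₁ y₂) 4 := by
  refine ⟨fun p n => ?_, fun p hp => ?_⟩
  · unfold QS
    rw [dvds_mod c p n, dvds_mod d p n]
  · rw [nuS]
    refine (card_union_le _ _).trans ?_
    have h0 := Z_card_le 1 p hp
    have h1 : (if p ≤ y₁ then ZS c p else ∅).card ≤ 2 := by
      split_ifs
      · rw [ZS_card c p hp]; exact h0
      · simp
    have h2 : (if p ≤ y₂ then ZS d p else ∅).card ≤ 2 := by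
      split_ifs
      · rw [ZS_card d p hp]; exact h0
      · simp
    omega

/-! ## the products -/

noncomputable def hT (c d w y : ℕ) : ℝ := ∑ l ∈ (mid w y).filter (fun l => BadS c d l), 8 / (l : ℝ)

lemma hT_nonneg (c d w y : ℕ) : 0 ≤ hT c d w y := sum_nonneg fun _ _ => by positivity

noncomputable def DS (c d w : ℕ) : ℝ := ∏ p ∈ pz w, (1 - ((ZS c p ∪ ZS d p).card : ℝ) / p)

lemma facS (c d p : ℕ) (hp : p.Prime) : 0 ≤ 1 - ((ZS c p ∪ ZS d p).card : ℝ) / p := by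
  have hp0 : (0 : ℝ) < p := by exact_mod_cast hp.pos
  have h1 : ((ZS c p ∪ ZS d p).card : ℝ) / p ≤ 1 := by
    rw [div_le_one hp0]
    have h := nuB_le (QS c d p p) p
    rw [nuS, if_pos le_rfl, if_pos le_rfl] at h
    exact_mod_cast h
  linarith

lemma DS_nonneg (c d w : ℕ) : 0 ≤ DS c d w := prod_nonneg fun p hp => facS c d p (mem_pz.1 hp).2

lemma DS_le (c d w : ℕ) : DS c d w ≤ V w := by
  unfold DS V
  apply Finset.prod_le_prod
  · intro p hp
    exact facS c d p (mem_pz.1 hp).2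
  · intro p hp
    have hp' := (mem_pz.1 hp).2
    unfold rh
    rw [← ZS_card c p hp']
    have h4 : ((ZS c p).card : ℝ) / p ≤ ((ZS c p ∪ ZS d p).card : ℝ) / p := by
      apply div_le_div_of_nonneg_right _ (Nat.cast_nonneg _)
      exact_mod_cast card_le_card subset_union_left
    linarith

lemma prdS_split (c d w y y₁ y₂ : ℕ) (h : w ≤ y) (h1 : w ≤ y₁) (h2 : w ≤ y₂) :
    Prd (QS c d y₁ y₂) y = DS c d w * ∏ p ∈ mid w y, (1 - (((if p ≤ y₁ then ZS c p else ∅) ∪ (if p ≤ y₂ then ZS d p else ∅)).card : ℝ) / p) := by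
  unfold Prd DS
  rw [pz_split h, prod_union (pz_disj w y)]
  congr 1
  · apply prod_congr rfl
    intro p hp
    have := (mem_pz.1 hp).1
    rw [nuS, if_pos (this.trans h1), if_pos (this.trans h2)]
  · apply prod_congr rfl
    intro p hp
    rw [nuS]

noncomputable def CS (c d w y : ℕ) : ℝ := ∏ p ∈ mid w y, (1 - ((ZS c p ∪ ZS d p).card : ℝ) / p)

lemma prdS_yy (c d w y : ℕ) (h : w ≤ y) : Prd (QS c d y y) y = DS c d w * CS c d w y := by
  rw [prdS_split c d w y y y h h h]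
  unfold CS
  congr 1
  apply prod_congr rfl
  intro p hp
  rw [if_pos (mem_mid.1 hp).2.2, if_pos (mem_mid.1 hp).2.2]

lemma prdS_yw (c d w y : ℕ) (h : w ≤ y) : Prd (QS c d y w) y = DS c d w * vv w y := by
  rw [prdS_split c d w y y w h h le_rfl]
  unfold vv rh
  congr 1
  apply prod_congr rfl
  intro p hp
  rw [if_pos (mem_mid.1 hp).2.2, if_neg (by have := (mem_mid.1 hp).2.1; omega), union_empty, ZS_card c p (mem_mid.1 hp).1]

lemma prdS_wy (c d w y : ℕ) (h : w ≤ y) : Prd (QS c d w y) y = DS c d w * vv w y := by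
  rw [prdS_split c d w y w y h le_rfl h]
  unfold vv rh
  congr 1
  apply prod_congr rfl
  intro p hp
  rw [if_pos (mem_mid.1 hp).2.2, if_neg (by have := (mem_mid.1 hp).2.1; omega), empty_union, ZS_card d p (mem_mid.1 hp).1]

lemma prdS_ww (c d w y : ℕ) (h : w ≤ y) : Prd (QS c d w w) y = DS c d w := by
  rw [prdS_split c d w y w w h le_rfl le_rfl]
  have : ∏ p ∈ mid w y, (1 - (((if p ≤ w then ZS c p else ∅) ∪ (if p ≤ w then ZS d p else ∅)).card : ℝ) / p) = 1 := by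
    apply prod_eq_one
    intro p hp
    rw [if_neg (by have := (mem_mid.1 hp).2.1; omega), if_neg (by have := (mem_mid.1 hp).2.1; omega)]
    simp
  rw [this, mul_one]

lemma CS_le (c d w y : ℕ) (hw : 4 ≤ w) : CS c d w y ≤ vv w y ^ 2 * Real.exp (hT c d w y) := by
  have h1 : CS c d w y ≤ ∏ p ∈ mid w y, ((1 - rh p) ^ 2 * (if BadS c d p then Real.exp (8 / p) else 1)) := by
    unfold CS
    apply Finset.prod_le_prod
    · intro p hp
      exact facS c d p (mem_mid.1 hp).1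
    · intro p hp
      obtain ⟨h1, h2, h3⟩ := mem_mid.1 hp
      have hpr : (4 : ℝ) ≤ p := by exact_mod_cast (by omega : 4 ≤ p)
      have h4 := rh_le h1
      have h5 := rh_nonneg p
      have h6 : 2 / (p : ℝ) ≤ 1 / 2 := by
        rw [div_le_div_iff₀ (by linarith) (by norm_num)]
        linarith
      split_ifs with h
      · have h7 := exp_ge h5 (h4.trans h6)
        have h8 : Real.exp (2 * (2 * rh p)) ≤ Real.exp (8 / p) := by
          apply Real.exp_le_exp.2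
          calc 2 * (2 * rh p) ≤ 2 * (2 * (2 / p)) := by linarith
            _ = 8 / p := by ring
        have h9 : 1 ≤ ((1 - rh p) * Real.exp (2 * rh p)) ^ 2 := one_le_pow₀ h7
        have h10 : ((1 - rh p) * Real.exp (2 * rh p)) ^ 2 = (1 - rh p) ^ 2 * Real.exp (2 * (2 * rh p)) := by
          rw [mul_pow, ← Real.exp_nat_mul]; norm_num
        have h11 : (1 - rh p) ^ 2 * Real.exp (2 * (2 * rh p)) ≤ (1 - rh p) ^ 2 * Real.exp (8 / p) :=
          mul_le_mul_of_nonneg_left h8 (by positivity)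
        have h12 : 0 ≤ ((ZS c p ∪ ZS d p).card : ℝ) / p := by positivity
        linarith
      · rw [mul_one, card_union_of_disjoint (ZS_disj c d p h1 h), ZS_card c p h1, ZS_card d p h1]
        have e : (((Z 1 p).card + (Z 1 p).card : ℕ) : ℝ) / p = 2 * rh p := by
          unfold rh; push_cast; ring
        rw [e]
        nlinarith
  refine h1.trans ?_
  rw [prod_mul_distrib]
  unfold vv
  rw [prod_pow]
  apply mul_le_mul_of_nonneg_left _ (by have := (vv_pos w y); unfold vv at this; positivity)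
  unfold hT
  rw [← prod_filter, Real.exp_sum]

lemma CS_ge (c d w y : ℕ) (hw : 4 ≤ w) : vv w y ^ 2 * (1 - 16 / w) ≤ CS c d w y := by
  have h1 : ∏ p ∈ mid w y, ((1 - rh p) ^ 2 * (1 - 16 / (p : ℝ) ^ 2)) ≤ CS c d w y := by
    unfold CS
    apply Finset.prod_le_prod
    · intro p hp
      obtain ⟨h1, h2, h3⟩ := mem_mid.1 hp
      have hpr : (4 : ℝ) ≤ p := by exact_mod_cast (by omega : 4 ≤ p)
      have : 16 / (p : ℝ) ^ 2 ≤ 1 := by
        rw [div_le_one (by positivity)]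
        nlinarith
      apply mul_nonneg (by positivity) (by linarith)
    · intro p hp
      obtain ⟨h1, h2, h3⟩ := mem_mid.1 hp
      have hpr : (4 : ℝ) ≤ p := by exact_mod_cast (by omega : 4 ≤ p)
      have hp0 : (0 : ℝ) < p := by linarith
      have h4 := rh_le h1
      have h5 := rh_nonneg p
      have h6 : 2 / (p : ℝ) ≤ 1 / 2 := by
        rw [div_le_div_iff₀ (by linarith) (by norm_num)]
        linarith
      have h7 : ((ZS c p ∪ ZS d p).card : ℝ) / p ≤ 2 * rh p := by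
        have : (ZS c p ∪ ZS d p).card ≤ (Z 1 p).card + (Z 1 p).card :=
          (card_union_le _ _).trans (by rw [ZS_card c p h1, ZS_card d p h1])
        have h8 : ((ZS c p ∪ ZS d p).card : ℝ) ≤ (Z 1 p).card + (Z 1 p).card := by exact_mod_cast this
        calc ((ZS c p ∪ ZS d p).card : ℝ) / p ≤ ((Z 1 p).card + (Z 1 p).card) / p :=
              div_le_div_of_nonneg_right h8 hp0.le
          _ = 2 * rh p := by unfold rh; ring
      have h8 : rh p ^ 2 ≤ 4 / (p : ℝ) ^ 2 := by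
        calc rh p ^ 2 ≤ (2 / (p : ℝ)) ^ 2 := pow_le_pow_left₀ h5 h4 2
          _ = 4 / (p : ℝ) ^ 2 := by rw [div_pow]; norm_num
      have h9 : 1 / 4 ≤ (1 - rh p) ^ 2 := by nlinarith
      have h10 : 4 / (p : ℝ) ^ 2 ≤ (1 - rh p) ^ 2 * (16 / (p : ℝ) ^ 2) := by
        calc 4 / (p : ℝ) ^ 2 = (1 / 4) * (16 / (p : ℝ) ^ 2) := by ring
          _ ≤ _ := mul_le_mul_of_nonneg_right h9 (by positivity)
      nlinarith
  refine le_trans ?_ h1
  rw [prod_mul_distrib, prod_pow]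
  unfold vv
  apply mul_le_mul_of_nonneg_left _ (by have := (vv_pos w y); unfold vv at this; positivity)
  have h2 := one_sub_sum_le_prod (mid w y) (fun p => 16 / (p : ℝ) ^ 2) (fun p _ => by positivity) (by
    intro p hp
    obtain ⟨h1, h2, h3⟩ := mem_mid.1 hp
    have hpr : (4 : ℝ) ≤ p := by exact_mod_cast (by omega : 4 ≤ p)
    show 16 / (p : ℝ) ^ 2 ≤ 1
    rw [div_le_one (by positivity)]
    nlinarith)
  refine le_trans ?_ h2
  have h3 := sum_inv_sq w y (by omega)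
  have h4 : ∑ p ∈ mid w y, 16 / (p : ℝ) ^ 2 = 16 * ∑ p ∈ mid w y, 1 / (p : ℝ) ^ 2 := by
    rw [mul_sum]
    apply sum_congr rfl
    intro p _
    ring
  rw [h4]
  have h5 : 16 / (w : ℝ) = 16 * (1 / w) := by ring
  rw [h5]
  linarith

end Pool.Agent.H31.DG
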