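import Pool.Agent.H31.DG.Base

set_option autoImplicit false

/-! # Two blocks of digits -/

namespace Pool.Agent.H31.DG

open Finset Filter Topology Pool.Agent.H373R2.T7 Pool.Agent.H31.MF

lemma cntS (c d y y₁ y₂ M : ℕ) (h1 : y₁ ≤ y) (h2 : y₂ ≤ y) :
    (cnt0 (QS c d y₁ y₂) y M : ℝ) = ∑ a ∈ range M, ind y₁ (a + c) * ind y₂ (a + d) := by
  classical
  unfold cnt0
  rw [card_filter]
  push_cast
  apply sum_congr rfl
  intro m _
  unfold ind
  have key : (∀ p ∈ pz y, ¬ QS c d y₁ y₂ p m) ↔ (Rgh y₁ (m + c) ∧ Rgh y₂ (m + d)) := by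
    unfold QS Rgh
    constructor
    · intro h
      refine ⟨fun p hp hd => ?_, fun p hp hd => ?_⟩
      · rw [mem_pz] at hp
        exact h p (mem_pz.2 ⟨hp.1.trans h1, hp.2⟩) (Or.inl ⟨hp.1, hd⟩)
      · rw [mem_pz] at hp
        exact h p (mem_pz.2 ⟨hp.1.trans h2, hp.2⟩) (Or.inr ⟨hp.1, hd⟩)
    · rintro ⟨h3, h4⟩ p hp (h5 | h5)
      · exact h3 p (mem_pz.2 ⟨h5.1, (mem_pz.1 hp).2⟩) h5.2
      · exact h4 p (mem_pz.2 ⟨h5.1, (mem_pz.1 hp).2⟩) h5.2
  simp only [key]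
  by_cases h3 : Rgh y₁ (m + c) <;> by_cases h4 : Rgh y₂ (m + d) <;> simp [h3, h4]

lemma inv_pow_le (y : ℕ) (hy : 1 ≤ y) : 1 / (y : ℝ) ^ 16 ≤ V y ^ 2 := by
  have h := Prd_low (adm1 1) y hy
  rw [← V_eq] at h
  calc 1 / (y : ℝ) ^ 16 = (1 / (y : ℝ) ^ 8) ^ 2 := by rw [div_pow, one_pow, ← pow_mul]
    _ ≤ V y ^ 2 := pow_le_pow_left₀ (by positivity) h 2

lemma inv_pow_le' (w y : ℕ) (hwy : w ≤ y) (hy : 1 ≤ y) : 1 / (y : ℝ) ^ 16 ≤ V w * vv w y ^ 2 := by
  refine (inv_pow_le y hy).trans ?_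
  rw [V_split hwy, mul_pow]
  apply mul_le_mul_of_nonneg_right _ (by positivity)
  have h1 := V_pos w
  have h2 := V_le_one w
  nlinarith

theorem pairS (c d w y M : ℕ) (hw : 4 ≤ w) (hwy : w ≤ y) (ε : ℝ) (hε0 : 0 ≤ ε)
    (hfl : ∀ Q : ℕ → ℕ → Prop, PerB Q 4 → |(cnt0 Q y M : ℝ) - M * Prd Q y| ≤ ε * (M * Prd Q y) + ε * (M / (y : ℝ) ^ 16)) :
    |∑ a ∈ range M, ff w y (a + c) * ff w y (a + d)| ≤
      M * V w * vv w y ^ 2 * (16 / w + (1 + 4 * ε) * (Real.exp (hT c d w y) - 1) + 8 * ε) := by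
  set v := vv w y with hv
  have hv0 : 0 < v := vv_pos w y
  have hv1 : v ≤ 1 := vv_le_one w y
  set D := DS c d w with hD
  have hD0 : 0 ≤ D := DS_nonneg c d w
  have hDV : D ≤ V w := DS_le c d w
  have hVw := V_pos w
  set h := Real.exp (hT c d w y) with hh
  have hh1 : 1 ≤ h := by rw [hh]; exact Real.one_le_exp (hT_nonneg c d w y)
  have hM0 : (0 : ℝ) ≤ M := Nat.cast_nonneg _
  have hC1 := CS_le c d w y hw
  have hC0 := CS_ge c d w y hw
  rw [← hv, ← hh] at hC1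
  rw [← hv] at hC0
  set E := ε * ((M : ℝ) / (y : ℝ) ^ 16) with hE
  have hE0 : 0 ≤ E := by positivity
  have hE1 : E ≤ ε * (M * (V w * v ^ 2)) := by
    rw [hE]
    apply mul_le_mul_of_nonneg_left _ hε0
    rw [div_eq_mul_one_div]
    exact mul_le_mul_of_nonneg_left (inv_pow_le' w y hwy (by omega)) hM0
  have f1 := hfl _ (perS c d y y)
  have f2 := hfl _ (perS c d y w)
  have f3 := hfl _ (perS c d w y)
  have f4 := hfl _ (perS c d w w)
  rw [prdS_yy c d w y hwy, cntS c d y y y M le_rfl le_rfl] at f1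
  rw [prdS_yw c d w y hwy, cntS c d y y w M le_rfl hwy] at f2
  rw [prdS_wy c d w y hwy, cntS c d y w y M hwy le_rfl] at f3
  rw [prdS_ww c d w y hwy, cntS c d y w w M hwy hwy] at f4
  rw [← hD] at f1 f2 f3 f4
  rw [← hv] at f2 f3
  set Cc := CS c d w y with hCc
  have e : ∑ m ∈ range M, ff w y (m + c) * ff w y (m + d) =
      (∑ m ∈ range M, ind y (m + c) * ind y (m + d)) - v * (∑ m ∈ range M, ind y (m + c) * ind w (m + d)) -
      v * (∑ m ∈ range M, ind w (m + c) * ind y (m + d)) + v ^ 2 * (∑ m ∈ range M, ind w (m + c) * ind w (m + d)) := by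
    rw [mul_sum, mul_sum, mul_sum, ← sum_sub_distrib, ← sum_sub_distrib, ← sum_add_distrib]
    apply sum_congr rfl
    intro m _
    unfold ff
    rw [← hv]
    ring
  rw [e]
  set S1 := ∑ m ∈ range M, ind y (m + c) * ind y (m + d)
  set S2 := ∑ m ∈ range M, ind y (m + c) * ind w (m + d)
  set S3 := ∑ m ∈ range M, ind w (m + c) * ind y (m + d)
  set S4 := ∑ m ∈ range M, ind w (m + c) * ind w (m + d)
  -- main terms
  have hmain : |D * Cc - v * (D * v) - v * (D * v) + v ^ 2 * D| ≤ D * (v ^ 2 * (16 / w + (h - 1))) := by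
    have e1 : D * Cc - v * (D * v) - v * (D * v) + v ^ 2 * D = D * (Cc - v ^ 2) := by ring
    rw [e1, abs_mul, abs_of_nonneg hD0]
    apply mul_le_mul_of_nonneg_left _ hD0
    have hw0 : (0 : ℝ) ≤ 16 / w := by positivity
    have hv2 : 0 ≤ v ^ 2 := by positivity
    have hvh : 0 ≤ v ^ 2 * (h - 1) := mul_nonneg hv2 (by linarith)
    have hvw : 0 ≤ v ^ 2 * (16 / w) := mul_nonneg hv2 hw0
    rw [abs_le]
    constructor <;> nlinarith
  -- errors
  have herr : |(S1 - v * S2 - v * S3 + v ^ 2 * S4) - M * (D * Cc - v * (D * v) - v * (D * v) + v ^ 2 * D)| ≤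
      ε * (M * (D * (v ^ 2 * (4 * h)))) + 4 * E := by
    have e2 : (S1 - v * S2 - v * S3 + v ^ 2 * S4) - M * (D * Cc - v * (D * v) - v * (D * v) + v ^ 2 * D) =
      (S1 - M * (D * Cc)) - v * (S2 - M * (D * v)) - v * (S3 - M * (D * v)) + v ^ 2 * (S4 - M * D) := by ring
    rw [e2]
    have k1 : |(S1 - M * (D * Cc)) - v * (S2 - M * (D * v)) - v * (S3 - M * (D * v)) + v ^ 2 * (S4 - M * D)| ≤
      |S1 - M * (D * Cc)| + v * |S2 - M * (D * v)| + v * |S3 - M * (D * v)| + v ^ 2 * |S4 - M * D| := by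
      refine (abs_add_le _ _).trans ?_
      apply add_le_add
      · refine (abs_sub _ _).trans ?_
        apply add_le_add
        · refine (abs_sub _ _).trans ?_
          apply add_le_add le_rfl
          rw [abs_mul, abs_of_pos hv0]
        · rw [abs_mul, abs_of_pos hv0]
      · rw [abs_mul, abs_of_pos (by positivity : (0 : ℝ) < v ^ 2)]
    refine k1.trans ?_
    have hMD : 0 ≤ M * D := by positivity
    have c1 : ε * (M * (D * Cc)) ≤ ε * (M * (D * (v ^ 2 * h))) := by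
      apply mul_le_mul_of_nonneg_left _ hε0
      apply mul_le_mul_of_nonneg_left _ hM0
      exact mul_le_mul_of_nonneg_left hC1 hD0
    have hvh : v ^ 2 ≤ v ^ 2 * h := le_mul_of_one_le_right (by positivity) hh1
    have c2 : v * (ε * (M * (D * v))) ≤ ε * (M * (D * (v ^ 2 * h))) := by
      calc v * (ε * (M * (D * v))) = ε * (M * (D * v ^ 2)) := by ring
        _ ≤ _ := by
          apply mul_le_mul_of_nonneg_left _ hε0
          apply mul_le_mul_of_nonneg_left _ hM0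
          exact mul_le_mul_of_nonneg_left hvh hD0
    have c4 : v ^ 2 * (ε * (M * D)) ≤ ε * (M * (D * (v ^ 2 * h))) := by
      calc v ^ 2 * (ε * (M * D)) = ε * (M * (D * v ^ 2)) := by ring
        _ ≤ _ := by
          apply mul_le_mul_of_nonneg_left _ hε0
          apply mul_le_mul_of_nonneg_left _ hM0
          exact mul_le_mul_of_nonneg_left hvh hD0
    have d2 := mul_le_mul_of_nonneg_left f2 hv0.le
    have d3 := mul_le_mul_of_nonneg_left f3 hv0.le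
    have d4 := mul_le_mul_of_nonneg_left f4 (by positivity : (0 : ℝ) ≤ v ^ 2)
    rw [mul_add] at d2 d3 d4
    have hvE : v * E ≤ E := mul_le_of_le_one_left hE0 hv1
    have hvE2 : v ^ 2 * E ≤ E := mul_le_of_le_one_left hE0 (pow_le_one₀ hv0.le hv1)
    have e5 : ε * (M * (D * (v ^ 2 * (4 * h)))) = 4 * (ε * (M * (D * (v ^ 2 * h)))) := by ring
    rw [e5]
    linarith
  have e3 : S1 - v * S2 - v * S3 + v ^ 2 * S4 = ((S1 - v * S2 - v * S3 + v ^ 2 * S4) - M * (D * Cc - v * (D * v) - v * (D * v) + v ^ 2 * D)) +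
    M * (D * Cc - v * (D * v) - v * (D * v) + v ^ 2 * D) := by ring
  rw [e3]
  refine (abs_add_le _ _).trans ?_
  rw [abs_mul, abs_of_nonneg hM0]
  have hh0 : 0 ≤ h - 1 := by linarith
  have hX : 0 ≤ 16 / (w : ℝ) + (1 + 4 * ε) * (h - 1) + 4 * ε := by
    have x1 := mul_nonneg (by positivity : 0 ≤ 1 + 4 * ε) hh0
    have x2 : 0 ≤ 16 / (w : ℝ) := by positivity
    linarith
  calc |(S1 - v * S2 - v * S3 + v ^ 2 * S4) - M * (D * Cc - v * (D * v) - v * (D * v) + v ^ 2 * D)| +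
        M * |D * Cc - v * (D * v) - v * (D * v) + v ^ 2 * D|
      ≤ (ε * (M * (D * (v ^ 2 * (4 * h)))) + 4 * E) + M * (D * (v ^ 2 * (16 / w + (h - 1)))) := by
        apply add_le_add herr
        exact mul_le_mul_of_nonneg_left hmain hM0
    _ = M * D * v ^ 2 * (16 / w + (1 + 4 * ε) * (h - 1) + 4 * ε) + 4 * E := by ring
    _ ≤ M * V w * v ^ 2 * (16 / w + (1 + 4 * ε) * (h - 1) + 4 * ε) + 4 * (ε * (M * (V w * v ^ 2))) := by
        apply add_le_add _ (mul_le_mul_of_nonneg_left hE1 (by norm_num))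
        apply mul_le_mul_of_nonneg_right _ hX
        apply mul_le_mul_of_nonneg_right _ (by positivity)
        exact mul_le_mul_of_nonneg_left hDV hM0
    _ = _ := by ring

/-- the number of rough integers in a shifted interval -/
lemma shift_count (c w y z M : ℕ) (hwy : w ≤ y) (hz : z = w ∨ z = y) (hy : 1 ≤ y) (ε : ℝ) (hε0 : 0 ≤ ε)
    (hfl : ∀ Q : ℕ → ℕ → Prop, PerB Q 4 → |(cnt0 Q y M : ℝ) - M * Prd Q y| ≤ ε * (M * Prd Q y) + ε * (M / (y : ℝ) ^ 16)) :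
    |∑ a ∈ range M, ind z (a + c) - M * V z| ≤ 2 * ε * (M * V z) := by
  have hzy : z ≤ y := by rcases hz with h | h <;> omega
  have h1 := hfl _ (perS c c z z)
  rw [cntS c c y z z M hzy hzy] at h1
  have e1 : ∑ m ∈ range M, ind z (m + c) * ind z (m + c) = ∑ m ∈ range M, ind z (m + c) :=
    sum_congr rfl fun m _ => ind_sq z (m + c)
  have e2 : Prd (QS c c z z) y = V z := by
    unfold Prd V
    rw [pz_split hzy, prod_union (pz_disj z y)]
    have e3 : ∏ p ∈ mid z y, (1 - (nuB (QS c c z z) p : ℝ) / p) = 1 := by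
      apply prod_eq_one
      intro p hp
      have := (mem_mid.1 hp).2.1
      rw [nuS, if_neg (by omega)]
      simp
    rw [e3, mul_one]
    apply prod_congr rfl
    intro p hp
    obtain ⟨h2, h3⟩ := mem_pz.1 hp
    rw [nuS, if_pos h2, union_self, ZS_card c p h3]
    rfl
  rw [e1, e2] at h1
  refine h1.trans ?_
  have h2 : (M : ℝ) / (y : ℝ) ^ 16 ≤ M * V z := by
    rw [div_eq_mul_one_div]
    apply mul_le_mul_of_nonneg_left _ (Nat.cast_nonneg _)
    refine (inv_pow_le y hy).trans ?_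
    have h3 := V_pos y
    have h4 := V_le_one y
    have h5 := V_anti hzy
    nlinarith
  have h3 := mul_le_mul_of_nonneg_left h2 hε0
  linarith

lemma diagS (c w y M : ℕ) (hwy : w ≤ y) (hy : 1 ≤ y) (ε : ℝ) (hε0 : 0 ≤ ε) (hε1 : ε ≤ 1)
    (hfl : ∀ Q : ℕ → ℕ → Prop, PerB Q 4 → |(cnt0 Q y M : ℝ) - M * Prd Q y| ≤ ε * (M * Prd Q y) + ε * (M / (y : ℝ) ^ 16)) :
    |∑ a ∈ range M, ff w y (a + c) * ff w y (a + c)| ≤ 6 * (M * V y) := by
  have hv0 := vv_pos w y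
  have e2 : 0 ≤ ∑ a ∈ range M, ff w y (a + c) * ff w y (a + c) := sum_nonneg fun m _ => mul_self_nonneg _
  rw [abs_of_nonneg e2]
  have h1 := (abs_le.1 (shift_count c w y y M hwy (Or.inr rfl) hy ε hε0 hfl)).2
  have h2 := (abs_le.1 (shift_count c w y w M hwy (Or.inl rfl) hy ε hε0 hfl)).2
  have hVy := V_pos y
  have hVw := V_pos w
  have hM0 : (0 : ℝ) ≤ M := Nat.cast_nonneg _
  have g1 : 2 * ε * (M * V y) ≤ 2 * (M * V y) := mul_le_mul_of_nonneg_right (by linarith) (by positivity)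
  have g2 : 2 * ε * (M * V w) ≤ 2 * (M * V w) := mul_le_mul_of_nonneg_right (by linarith) (by positivity)
  calc ∑ a ∈ range M, ff w y (a + c) * ff w y (a + c) ≤ ∑ a ∈ range M, (ind y (a + c) + vv w y * ind w (a + c)) := by
        apply sum_le_sum
        intro a _
        obtain ⟨k1, k2⟩ := ff_abs w y (a + c) hwy
        have k3 : ff w y (a + c) * ff w y (a + c) ≤ |ff w y (a + c)| := by
          rw [← abs_mul_abs_self]
          exact mul_le_of_le_one_left (abs_nonneg _) k1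
        linarith
    _ = ∑ a ∈ range M, ind y (a + c) + vv w y * ∑ a ∈ range M, ind w (a + c) := by rw [sum_add_distrib, ← mul_sum]
    _ ≤ 3 * (M * V y) + vv w y * (3 * (M * V w)) := by
        apply add_le_add (by linarith)
        exact mul_le_mul_of_nonneg_left (by linarith) hv0.le
    _ = 6 * (M * V y) := by rw [V_split hwy]; ring

/-- Cauchy's inequality, and expanding the square -/
lemma cauchy_expand2 (P S : Finset ℕ) (h : ℕ → ℂ) (hh : ∀ n, ‖h n‖ ≤ 1) (f : ℕ → ℕ → ℝ) (c : ℕ → ℂ) (hc : ∀ n, ‖c n‖ ≤ 1) :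
    ‖∑ m ∈ S, c m * ∑ a ∈ P, h a * (f m a : ℂ)‖ ^ 2 ≤
      (S.card : ℝ) * ∑ a ∈ P, ∑ b ∈ P, |∑ m ∈ S, f m a * f m b| := by
  classical
  set G : ℕ → ℂ := fun m => ∑ a ∈ P, h a * (f m a : ℂ) with hG
  have h1 : ‖∑ m ∈ S, c m * G m‖ ≤ ∑ m ∈ S, ‖G m‖ := by
    refine (norm_sum_le _ _).trans (sum_le_sum fun m _ => ?_)
    rw [norm_mul]
    calc ‖c m‖ * ‖G m‖ ≤ 1 * ‖G m‖ := mul_le_mul_of_nonneg_right (hc m) (norm_nonneg _)
      _ = ‖G m‖ := one_mul _
  have h2 : (∑ m ∈ S, ‖G m‖) ^ 2 ≤ (S.card : ℝ) * ∑ m ∈ S, ‖G m‖ ^ 2 := sq_sum_le_card_mul_sum_sq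
  have h3 : ‖∑ m ∈ S, c m * G m‖ ^ 2 ≤ (∑ m ∈ S, ‖G m‖) ^ 2 := pow_le_pow_left₀ (norm_nonneg _) h1 2
  refine (h3.trans h2).trans (mul_le_mul_of_nonneg_left ?_ (Nat.cast_nonneg _))
  have h4 : ∀ m, ((‖G m‖ ^ 2 : ℝ) : ℂ) = ∑ a ∈ P, ∑ b ∈ P, (h a * (starRingEnd ℂ) (h b)) * ((f m a * f m b : ℝ) : ℂ) := by
    intro m
    rw [← Complex.normSq_eq_norm_sq, ← Complex.mul_conj, hG]
    simp only [map_sum]
    rw [sum_mul_sum]
    apply sum_congr rfl
    intro a _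
    apply sum_congr rfl
    intro b _
    simp only [map_mul, Complex.conj_ofReal, Complex.ofReal_mul]
    ring
  have h5 : ((∑ m ∈ S, ‖G m‖ ^ 2 : ℝ) : ℂ) = ∑ a ∈ P, ∑ b ∈ P, (h a * (starRingEnd ℂ) (h b)) *
      ((∑ m ∈ S, f m a * f m b : ℝ) : ℂ) := by
    rw [Complex.ofReal_sum]
    simp only [h4]
    rw [sum_comm]
    apply sum_congr rfl
    intro a _
    rw [sum_comm]
    apply sum_congr rfl
    intro b _
    rw [← mul_sum]
    congr 1
    push_cast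
    rfl
  have h6 : (∑ m ∈ S, ‖G m‖ ^ 2 : ℝ) = ‖((∑ m ∈ S, ‖G m‖ ^ 2 : ℝ) : ℂ)‖ := by
    rw [Complex.norm_real, Real.norm_of_nonneg (sum_nonneg fun _ _ => by positivity)]
  rw [h6, h5]
  refine (norm_sum_le _ _).trans (sum_le_sum fun a _ => ?_)
  refine (norm_sum_le _ _).trans (sum_le_sum fun b _ => ?_)
  rw [norm_mul, norm_mul, RCLike.norm_conj, Complex.norm_real, Real.norm_eq_abs]
  have k1 : ‖h a‖ * ‖h b‖ ≤ 1 := mul_le_one₀ (hh a) (norm_nonneg _) (hh b)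
  calc ‖h a‖ * ‖h b‖ * |∑ m ∈ S, f m a * f m b|
      ≤ 1 * |∑ m ∈ S, f m a * f m b| := mul_le_mul_of_nonneg_right k1 (abs_nonneg _)
    _ = _ := one_mul _

end Pool.Agent.H31.DG
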