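import Pool.Agent.H31.DG.AvgS
import Pool.Agent.H31.MF.Fin

set_option autoImplicit false

/-! # The bilinear sum over two blocks of digits -/

namespace Pool.Agent.H31.DG

open Finset Filter Topology Pool.Agent.H373R2.T7 Pool.Agent.H31.MF

theorem blockS : ∃ C : ℝ, 0 < C ∧ ∀ (T B N w y : ℕ) (ε : ℝ), 1 ≤ T → 1 ≤ B → T * B ≤ N → 2 ≤ N → 4 ≤ w → w ≤ y →
    (∀ l : ℕ, l.Prime → l ∣ T → l ≤ w) → 0 ≤ ε → ε ≤ 1 → FL2 N y ε → N ≤ T ^ 4 →
    ∀ G H : ℕ → ℂ, (∀ n, ‖G n‖ ≤ 1) → (∀ n, ‖H n‖ ≤ 1) →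
    ‖∑ b ∈ range B, ∑ a ∈ range T, G a * H b * (ff w y (a + T * b) : ℂ)‖ ^ 2 ≤
      ((T : ℝ) * B) ^ 2 * (V w * vv w y ^ 2 * (C * (1 / Real.sqrt w + ε + (Nat.log 2 (N ^ 4) : ℝ) / Real.sqrt B)) + 6 * V y / B) := by
  classical
  obtain ⟨C0, hC0, havg⟩ := avgS
  refine ⟨24 + 5 * C0, by positivity, fun T B N w y ε hT1 hB hTB hN hw hwy hTw hε0 hε1 hFL hNT G H hG hH => ?_⟩
  have hfl := fun (Q : ℕ → ℕ → Prop) (hQ : PerB Q 4) => hFL Q hQ T hNT
  have hB0 : (0 : ℝ) < B := by exact_mod_cast hB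
  have hT0 : (0 : ℝ) < T := by exact_mod_cast hT1
  have hw0 : (4 : ℝ) ≤ w := by exact_mod_cast hw
  have hVw := V_pos w
  have hVy := V_pos y
  have hv0 := vv_pos w y
  set L : ℝ := (Nat.log 2 (N ^ 4) : ℝ) / Real.sqrt B with hL
  have hL0 : 0 ≤ L := by positivity
  set s : ℝ := 1 / Real.sqrt w with hs
  have hs0 : 0 ≤ s := by positivity
  have e1 : ∑ b ∈ range B, ∑ a ∈ range T, G a * H b * (ff w y (a + T * b) : ℂ) =
      ∑ a ∈ range T, G a * ∑ b ∈ range B, H b * (ff w y (a + T * b) : ℂ) := by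
    rw [sum_comm]
    apply sum_congr rfl
    intro a _
    rw [mul_sum]
    apply sum_congr rfl
    intro b _
    ring
  rw [e1]
  refine (cauchy_expand2 (range B) (range T) H hH (fun a b => ff w y (a + T * b)) G hG).trans ?_
  rw [card_range]
  have e2 : ∑ b ∈ range B, ∑ b' ∈ range B, |∑ a ∈ range T, ff w y (a + T * b) * ff w y (a + T * b')| =
      ∑ b ∈ range B, (|∑ a ∈ range T, ff w y (a + T * b) * ff w y (a + T * b)| +
        ∑ b' ∈ (range B).filter (fun b' => b ≠ b'), |∑ a ∈ range T, ff w y (a + T * b) * ff w y (a + T * b')|) := by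
    apply sum_congr rfl
    intro b hb
    rw [← sum_filter_add_sum_filter_not (range B) (fun b' => b = b')]
    congr 1
    rw [sum_filter, sum_ite_eq, if_pos hb]
  rw [e2, sum_add_distrib]
  have hdiag : ∑ b ∈ range B, |∑ a ∈ range T, ff w y (a + T * b) * ff w y (a + T * b)| ≤ B * (6 * (T * V y)) := by
    calc ∑ b ∈ range B, |∑ a ∈ range T, ff w y (a + T * b) * ff w y (a + T * b)|
        ≤ ∑ _b ∈ range B, 6 * (T * V y) := sum_le_sum fun b _ => diagS (T * b) w y T hwy (by omega) ε hε0 hε1 hfl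
      _ = _ := by rw [sum_const, card_range, nsmul_eq_mul]
  have hoff : ∑ b ∈ range B, ∑ b' ∈ (range B).filter (fun b' => b ≠ b'), |∑ a ∈ range T, ff w y (a + T * b) * ff w y (a + T * b')| ≤
      T * V w * vv w y ^ 2 * (B ^ 2 * ((24 + 5 * C0) * (s + ε + L))) := by
    have hK : 0 ≤ T * V w * vv w y ^ 2 := by positivity
    have hw1 : 16 / (w : ℝ) ≤ 16 * s := by
      rw [hs, mul_one_div]
      apply div_le_div_of_nonneg_left (by norm_num) (Real.sqrt_pos.2 (by linarith))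
      rw [Real.sqrt_le_left (by linarith)]
      nlinarith
    calc ∑ b ∈ range B, ∑ b' ∈ (range B).filter (fun b' => b ≠ b'), |∑ a ∈ range T, ff w y (a + T * b) * ff w y (a + T * b')|
        ≤ ∑ b ∈ range B, ∑ b' ∈ (range B).filter (fun b' => b ≠ b'), T * V w * vv w y ^ 2 *
            ((16 * s + 8 * ε) + 5 * (Real.exp (hT (T * b) (T * b') w y) - 1)) := by
          apply sum_le_sum
          intro b _
          apply sum_le_sum
          intro b' _
          refine (pairS (T * b) (T * b') w y T hw hwy ε hε0 hfl).trans ?_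
          apply mul_le_mul_of_nonneg_left _ hK
          have h1 : 0 ≤ Real.exp (hT (T * b) (T * b') w y) - 1 := by
            have := Real.one_le_exp (hT_nonneg (T * b) (T * b') w y)
            linarith
          have h2 : (1 + 4 * ε) * (Real.exp (hT (T * b) (T * b') w y) - 1) ≤ 5 * (Real.exp (hT (T * b) (T * b') w y) - 1) :=
            mul_le_mul_of_nonneg_right (by linarith) h1
          linarith
      _ = T * V w * vv w y ^ 2 * (∑ b ∈ range B, ∑ _b' ∈ (range B).filter (fun b' => b ≠ b'), (16 * s + 8 * ε) +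
            5 * ∑ b ∈ range B, ∑ b' ∈ (range B).filter (fun b' => b ≠ b'), (Real.exp (hT (T * b) (T * b') w y) - 1)) := by
          simp only [← mul_sum, sum_add_distrib]
      _ ≤ T * V w * vv w y ^ 2 * (B ^ 2 * (16 * s + 8 * ε) + 5 * (C0 * B ^ 2 * (s + L))) := by
          apply mul_le_mul_of_nonneg_left _ hK
          apply add_le_add
          · calc ∑ b ∈ range B, ∑ _b' ∈ (range B).filter (fun b' => b ≠ b'), (16 * s + 8 * ε)
                ≤ ∑ b ∈ range B, ∑ _b' ∈ range B, (16 * s + 8 * ε) := by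
                  apply sum_le_sum
                  intro b _
                  exact sum_le_sum_of_subset_of_nonneg (filter_subset _ _) (fun _ _ _ => by positivity)
              _ = _ := by
                  simp only [sum_const, card_range, nsmul_eq_mul]
                  ring
          · exact mul_le_mul_of_nonneg_left (havg T B N w y hT1 hB hTB hN hw hTw) (by norm_num)
      _ ≤ _ := by
          apply mul_le_mul_of_nonneg_left _ hK
          have h1 : 0 ≤ (B : ℝ) ^ 2 := by positivity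
          have h2 : (B : ℝ) ^ 2 * (16 * s + 8 * ε) + 5 * (C0 * B ^ 2 * (s + L)) = B ^ 2 * ((16 * s + 8 * ε) + 5 * (C0 * (s + L))) := by ring
          rw [h2]
          apply mul_le_mul_of_nonneg_left _ h1
          have h3 : 0 ≤ C0 * ε := by positivity
          nlinarith
  calc (T : ℝ) * (∑ b ∈ range B, |∑ a ∈ range T, ff w y (a + T * b) * ff w y (a + T * b)| +
        ∑ b ∈ range B, ∑ b' ∈ (range B).filter (fun b' => b ≠ b'), |∑ a ∈ range T, ff w y (a + T * b) * ff w y (a + T * b')|)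
      ≤ (T : ℝ) * (B * (6 * (T * V y)) + T * V w * vv w y ^ 2 * (B ^ 2 * ((24 + 5 * C0) * (s + ε + L)))) :=
        mul_le_mul_of_nonneg_left (add_le_add hdiag hoff) hT0.le
    _ = _ := by field_simp; ring

lemma log_small (δ : ℝ) (hδ : 0 < δ) : ∀ᶠ N : ℕ in atTop, ∀ B : ℕ, Nat.sqrt N ≤ B → (Nat.log 2 (N ^ 4) : ℝ) / Real.sqrt B ≤ δ := by
  have h1 := (isLittleO_log_rpow_atTop (show (0 : ℝ) < 1 / 4 by norm_num)).def (show 0 < δ / 12 by positivity)
  have h2 := (tendsto_natCast_atTop_atTop (R := ℝ)).eventually h1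
  filter_upwards [h2, eventually_ge_atTop 16] with N hN hN16 B hB
  have hN0 : (16 : ℝ) ≤ N := by exact_mod_cast hN16
  have hlog : 0 < Real.log N := Real.log_pos (by linarith)
  rw [Real.norm_of_nonneg hlog.le, Real.norm_of_nonneg (by positivity)] at hN
  set u : ℝ := (N : ℝ) ^ (1 / 4 : ℝ) with hu
  have hu0 : 0 < u := by positivity
  have hu4 : u ^ 4 = N := by
    rw [hu, ← Real.rpow_natCast, ← Real.rpow_mul (by linarith)]
    norm_num
  have hsq : u ^ 2 < (Nat.sqrt N : ℝ) + 1 := by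
    have h3 : N < (Nat.sqrt N + 1) ^ 2 := Nat.lt_succ_sqrt' N
    have h4 : (N : ℝ) < ((Nat.sqrt N : ℝ) + 1) ^ 2 := by exact_mod_cast h3
    have h5 : (u ^ 2) ^ 2 < ((Nat.sqrt N : ℝ) + 1) ^ 2 := by
      have e : (u ^ 2) ^ 2 = u ^ 4 := by ring
      rw [e, hu4]
      exact h4
    exact lt_of_pow_lt_pow_left₀ 2 (by positivity) h5
  have hs4 : (4 : ℝ) ≤ Nat.sqrt N := by
    have : 4 ≤ Nat.sqrt N := by rw [Nat.le_sqrt']; omega
    exact_mod_cast this
  have hB1 : (Nat.sqrt N : ℝ) ≤ B := by exact_mod_cast hB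
  have hB2 : (u / 2) ^ 2 ≤ B := by nlinarith
  have hB3 : u / 2 ≤ Real.sqrt B := Real.le_sqrt_of_sq_le hB2
  have hlog2 : (Nat.log 2 (N ^ 4) : ℝ) ≤ 6 * Real.log N := by
    have h3 : (2 : ℝ) ^ (Nat.log 2 (N ^ 4)) ≤ (N : ℝ) ^ 4 := by
      have : 2 ^ (Nat.log 2 (N ^ 4)) ≤ N ^ 4 := Nat.pow_log_le_self 2 (by positivity)
      exact_mod_cast this
    have h4 := Real.log_le_log (by positivity) h3
    rw [Real.log_pow, Real.log_pow] at h4
    push_cast at h4
    have h5 := Real.log_two_gt_d9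
    have h6 : (0 : ℝ) ≤ Nat.log 2 (N ^ 4) := Nat.cast_nonneg _
    nlinarith
  rw [div_le_iff₀ (by linarith)]
  calc (Nat.log 2 (N ^ 4) : ℝ) ≤ 6 * Real.log N := hlog2
    _ ≤ 6 * (δ / 12 * u) := mul_le_mul_of_nonneg_left hN (by norm_num)
    _ = δ * (u / 2) := by ring
    _ ≤ δ * Real.sqrt B := mul_le_mul_of_nonneg_left hB3 hδ.le

lemma sum_blocks (T B : ℕ) (f : ℕ → ℂ) : ∑ n ∈ range (T * B), f n = ∑ b ∈ range B, ∑ a ∈ range T, f (a + T * b) := by
  induction B with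
  | zero => simp
  | succ B ih =>
    rw [Nat.mul_succ, sum_range_add, ih, sum_range_succ]
    congr 1
    apply sum_congr rfl
    intro a _
    rw [add_comm]

/-- the main theorem for two blocks of digits -/
theorem main2 (q : ℕ) (hq : 2 ≤ q) (ε0 : ℝ) (hε0 : 0 < ε0) : ∃ w r : ℕ, 4 ≤ w ∧ q ≤ w ∧ 1 ≤ r ∧
    ∀ᶠ N : ℕ in atTop, ∀ y : ℕ, w ≤ y → y ^ r ≤ N →
    (∀ G H : ℕ → ℂ, (∀ n, ‖G n‖ ≤ 1) → (∀ n, ‖H n‖ ≤ 1) →
      ‖∑ n ∈ range N, G (n % q ^ Nat.log q (Nat.sqrt N)) * H (n / q ^ Nat.log q (Nat.sqrt N)) * (ff w y n : ℂ)‖ ≤ ε0 * (N * V y)) ∧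
    |∑ n ∈ range N, ind y n - N * V y| ≤ ε0 * (N * V y) := by
  classical
  obtain ⟨C, hC, hblock⟩ := blockS
  obtain ⟨B, n1, hV1⟩ := V_low
  -- the choice of `w`
  obtain ⟨n2, hn2⟩ := ev_log' B (24 * C / ε0 ^ 2)
  obtain ⟨w, hw⟩ : ∃ w, w = max (max n1 n2) (max q 4) := ⟨_, rfl⟩
  have hw4 : 4 ≤ w := by rw [hw]; exact le_trans (le_max_right _ _) (le_max_right _ _)
  have hwq : q ≤ w := by rw [hw]; exact le_trans (le_max_left _ _) (le_max_right _ _)
  have hwn1 : n1 ≤ w := by rw [hw]; exact le_trans (le_max_left _ _) (le_max_left _ _)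
  have hwn2 : n2 ≤ w := by rw [hw]; exact le_trans (le_max_right _ _) (le_max_left _ _)
  clear hw
  have hVw := V_pos w
  have hwr : (4 : ℝ) ≤ w := by exact_mod_cast hw4
  have hlw : 0 < Real.log w := Real.log_pos (by linarith)
  have hsw : 0 < Real.sqrt w := Real.sqrt_pos.2 (by linarith)
  have hwC : C / Real.sqrt w ≤ ε0 ^ 2 * V w / 24 := by
    have h1 := hV1 w hwn1
    have h2 := hn2 w hwn2
    have h3 : 24 * C / ε0 ^ 2 ≤ Real.sqrt w * V w := by
      have hB : 0 < Real.log w ^ B := by positivity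
      rw [div_le_iff₀ hB] at h1
      calc 24 * C / ε0 ^ 2 = (24 * C / ε0 ^ 2) * 1 := by ring
        _ ≤ (24 * C / ε0 ^ 2) * (V w * Real.log w ^ B) := mul_le_mul_of_nonneg_left h1 (by positivity)
        _ = (24 * C / ε0 ^ 2 * Real.log w ^ B) * V w := by ring
        _ ≤ Real.sqrt w * V w := mul_le_mul_of_nonneg_right h2 hVw.le
    rw [div_le_iff₀ (by positivity)] at h3
    rw [div_le_div_iff₀ hsw (by norm_num)]
    linarith
  -- the choice of `ε`
  obtain ⟨ε, hεd⟩ : ∃ ε, ε = min (min (1 / 2) (ε0 / 2)) (ε0 ^ 2 * V w / (24 * C)) := ⟨_, rfl⟩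
  have hεpos : 0 < ε := by
    rw [hεd]
    refine lt_min (lt_min (by norm_num) (by positivity)) (by positivity)
  have hε1 : ε ≤ 1 / 2 := by rw [hεd]; exact (min_le_left _ _).trans (min_le_left _ _)
  have hε2 : ε ≤ ε0 / 2 := by rw [hεd]; exact (min_le_left _ _).trans (min_le_right _ _)
  have hε3 : C * ε ≤ ε0 ^ 2 * V w / 24 := by
    have : ε ≤ ε0 ^ 2 * V w / (24 * C) := by rw [hεd]; exact min_le_right _ _
    rw [le_div_iff₀ (by positivity)] at this
    rw [le_div_iff₀ (by norm_num)]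
    linarith
  clear hεd
  obtain ⟨r0, hr0, hfl⟩ := fl2 ε hεpos
  obtain ⟨n3, hn3⟩ := exists_nat_ge (max (4 / ε0) (96 / ε0 ^ 2))
  refine ⟨w, max r0 32, hw4, hwq, le_max_of_le_left hr0, ?_⟩
  filter_upwards [hfl, log_small ε hεpos, eventually_ge_atTop (max (n3 ^ 4) (max (q ^ 4) 16))] with N hflN hlogN hNlarge y hwy hyr
  have hN16 : 16 ≤ N := le_trans (le_trans (le_max_right _ _) (le_max_right _ _)) hNlarge
  have hNq : q ^ 4 ≤ N := le_trans (le_trans (le_max_left _ _) (le_max_right _ _)) hNlarge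
  have hNn3 : n3 ^ 4 ≤ N := le_trans (le_max_left _ _) hNlarge
  have hN0 : (0 : ℝ) < N := by exact_mod_cast (by omega : 0 < N)
  have hy4 : 4 ≤ y := hw4.trans hwy
  have hyr0 : y ^ r0 ≤ N := le_trans (Nat.pow_le_pow_right (by omega) (le_max_left _ _)) hyr
  have hy32 : y ^ 32 ≤ N := le_trans (Nat.pow_le_pow_right (by omega) (le_max_right _ _)) hyr
  have FLy : FL2 N y ε := hflN y (by omega) hyr0
  have hVy := V_pos y
  have hv0 := vv_pos w y
  obtain ⟨s, hs⟩ : ∃ s, s = Nat.sqrt N := ⟨_, rfl⟩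
  obtain ⟨T, hTd⟩ : ∃ T, T = q ^ Nat.log q s := ⟨_, rfl⟩
  rw [← hs] at hlogN ⊢
  rw [← hTd]
  -- `u`
  obtain ⟨u, hu⟩ : ∃ u, u = Real.sqrt (Real.sqrt N) := ⟨_, rfl⟩
  have hu2 : u ^ 2 = Real.sqrt N := by rw [hu]; exact Real.sq_sqrt (Real.sqrt_nonneg _)
  have hu4 : u ^ 4 = N := by
    have e : u ^ 4 = (u ^ 2) ^ 2 := by ring
    rw [e, hu2]
    exact Real.sq_sqrt hN0.le
  have hu0 : 0 < u := by rw [hu]; exact Real.sqrt_pos.2 (Real.sqrt_pos.2 hN0)
  have hun3 : (n3 : ℝ) ≤ u := by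
    have : ((n3 : ℝ)) ^ 4 ≤ u ^ 4 := by rw [hu4]; exact_mod_cast hNn3
    exact le_of_pow_le_pow_left₀ (by norm_num) hu0.le this
  have hu1 : 4 / ε0 ≤ u := le_trans (le_trans (le_max_left _ _) hn3) hun3
  have hu3 : 96 / ε0 ^ 2 ≤ u := le_trans (le_trans (le_max_right _ _) hn3) hun3
  have hyu : (y : ℝ) ^ 8 ≤ u := by
    have : ((y : ℝ) ^ 8) ^ 4 ≤ u ^ 4 := by
      rw [hu4, ← pow_mul]; exact_mod_cast hy32
    exact le_of_pow_le_pow_left₀ (by norm_num) hu0.le this
  have hVu : 1 ≤ V y * u := by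
    have h := Prd_low (adm1 1) y (by omega)
    rw [← V_eq, div_le_iff₀ (by positivity)] at h
    exact h.trans (mul_le_mul_of_nonneg_left hyu hVy.le)
  -- `s`
  have hs4 : 4 ≤ s := by rw [hs, Nat.le_sqrt']; omega
  have hsq : q ^ 2 ≤ s := by
    rw [hs, Nat.le_sqrt']
    calc (q ^ 2) ^ 2 = q ^ 4 := by ring
      _ ≤ N := hNq
  have hsN : s ^ 2 ≤ N := by rw [hs]; exact Nat.sqrt_le' N
  have hsN' : N < (s + 1) ^ 2 := by rw [hs]; exact Nat.lt_succ_sqrt' N
  have hsu : (s : ℝ) ≤ u ^ 2 := by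
    have h1 : ((s : ℝ)) ^ 2 ≤ (u ^ 2) ^ 2 := by
      rw [← pow_mul, hu4]; exact_mod_cast hsN
    exact le_of_pow_le_pow_left₀ (by norm_num) (by positivity) h1
  have hus : u ^ 2 / 2 ≤ s := by
    have h1 : (u ^ 2) ^ 2 < ((s : ℝ) + 1) ^ 2 := by
      rw [← pow_mul, hu4]; exact_mod_cast hsN'
    have h2 : u ^ 2 < (s : ℝ) + 1 := lt_of_pow_lt_pow_left₀ 2 (by positivity) h1
    have h3 : (4 : ℝ) ≤ s := by exact_mod_cast hs4
    linarith
  -- `T`
  have hTs : T ≤ s := by rw [hTd]; exact Nat.pow_log_le_self q (by omega)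
  have hsT : s < q * T := by
    rw [hTd]
    have := Nat.lt_pow_succ_log_self (show 1 < q by omega) s
    rw [Nat.pow_succ, mul_comm] at this
    exact this
  have hT1 : 1 ≤ T := by rw [hTd]; exact Nat.one_le_pow _ _ (by omega)
  have hTq : q ≤ T := by
    by_contra h
    push Not at h
    have : q * T ≤ q * q := Nat.mul_le_mul_left q h.le
    nlinarith
  have hNT : N ≤ T ^ 4 := by
    have h1 : s + 1 ≤ q * T := hsT
    calc N ≤ (s + 1) ^ 2 := hsN'.le
      _ ≤ (q * T) ^ 2 := Nat.pow_le_pow_left h1 2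
      _ = q ^ 2 * T ^ 2 := by ring
      _ ≤ T ^ 2 * T ^ 2 := Nat.mul_le_mul_right _ (Nat.pow_le_pow_left hTq 2)
      _ = T ^ 4 := by ring
  have hTw : ∀ l : ℕ, l.Prime → l ∣ T → l ≤ w := by
    intro l hl hlT
    rw [hTd] at hlT
    exact le_trans (Nat.le_of_dvd (by omega) (hl.dvd_of_dvd_pow hlT)) hwq
  -- `BB`
  obtain ⟨BB, hBd⟩ : ∃ BB, BB = N / T := ⟨_, rfl⟩
  have hsB : s ≤ BB := by
    rw [hBd, Nat.le_div_iff_mul_le (by omega)]
    calc s * T ≤ s * s := Nat.mul_le_mul_left s hTs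
      _ = s ^ 2 := by ring
      _ ≤ N := hsN
  have hB1 : 1 ≤ BB := by omega
  have hTB : T * BB ≤ N := by rw [hBd]; exact Nat.mul_div_le N T
  have hR : N = T * BB + N % T := by rw [hBd]; exact (Nat.div_add_mod N T).symm
  have hRT : N % T < T := Nat.mod_lt _ (by omega)
  have hB0 : (0 : ℝ) < BB := by exact_mod_cast hB1
  have hT0 : (0 : ℝ) < T := by exact_mod_cast hT1
  have hLε := hlogN BB hsB
  have hNV : 0 < N * V y := by positivity
  constructor
  · intro G H hG hH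
    have e1 : ∑ n ∈ range N, G (n % T) * H (n / T) * (ff w y n : ℂ) =
        (∑ b ∈ range BB, ∑ a ∈ range T, G a * H b * (ff w y (a + T * b) : ℂ)) +
        ∑ x ∈ range (N % T), G ((T * BB + x) % T) * H ((T * BB + x) / T) * (ff w y (T * BB + x) : ℂ) := by
      conv_lhs => rw [hR]
      rw [sum_range_add, sum_blocks]
      congr 1
      apply sum_congr rfl
      intro b _
      apply sum_congr rfl
      intro a ha
      rw [mem_range] at ha
      rw [Nat.add_mul_mod_self_left, Nat.mod_eq_of_lt ha, Nat.add_mul_div_left _ _ (by omega), Nat.div_eq_of_lt ha, zero_add]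
    rw [e1]
    refine (norm_add_le _ _).trans ?_
    have hA := hblock T BB N w y ε hT1 hB1 hTB (by omega) hw4 hwy hTw hεpos.le (by linarith) FLy hNT G H hG hH
    have hA2 : ‖∑ b ∈ range BB, ∑ a ∈ range T, G a * H b * (ff w y (a + T * b) : ℂ)‖ ≤ ε0 / 2 * (N * V y) := by
      have h1 : V w * vv w y ^ 2 * (C * (1 / Real.sqrt w + ε + (Nat.log 2 (N ^ 4) : ℝ) / Real.sqrt BB)) + 6 * V y / BB ≤
          (ε0 / 2 * V y) ^ 2 := by
        have h2 : C * (1 / Real.sqrt w + ε + (Nat.log 2 (N ^ 4) : ℝ) / Real.sqrt BB) ≤ ε0 ^ 2 * V w / 8 := by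
          have h3 : C * (1 / Real.sqrt w) = C / Real.sqrt w := by ring
          have h4 := mul_le_mul_of_nonneg_left hLε hC.le
          rw [mul_add, mul_add, h3]
          linarith
        have h5 : V w * vv w y ^ 2 * (C * (1 / Real.sqrt w + ε + (Nat.log 2 (N ^ 4) : ℝ) / Real.sqrt BB)) ≤ ε0 ^ 2 / 8 * V y ^ 2 := by
          calc _ ≤ V w * vv w y ^ 2 * (ε0 ^ 2 * V w / 8) := mul_le_mul_of_nonneg_left h2 (by positivity)
            _ = ε0 ^ 2 / 8 * (V w * vv w y) ^ 2 := by ring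
            _ = _ := by rw [← V_split hwy]
        have h6 : 6 * V y / BB ≤ ε0 ^ 2 / 8 * V y ^ 2 := by
          rw [div_le_iff₀ hB0]
          have h7 : u / 2 ≤ V y * BB := by
            have h8 : u ^ 2 / 2 ≤ BB := hus.trans (by exact_mod_cast hsB)
            calc u / 2 = 1 * (u / 2) := by ring
              _ ≤ (V y * u) * (u / 2) := mul_le_mul_of_nonneg_right hVu (by positivity)
              _ = V y * (u ^ 2 / 2) := by ring
              _ ≤ V y * BB := mul_le_mul_of_nonneg_left h8 hVy.le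
          have h9 : 96 ≤ ε0 ^ 2 * u := by
            rw [div_le_iff₀ (by positivity)] at hu3
            linarith
          have h10 : 6 ≤ ε0 ^ 2 / 8 * (V y * BB) := by
            calc (6 : ℝ) ≤ ε0 ^ 2 / 8 * (u / 2) := by linarith
              _ ≤ _ := mul_le_mul_of_nonneg_left h7 (by positivity)
          calc 6 * V y ≤ (ε0 ^ 2 / 8 * (V y * BB)) * V y := mul_le_mul_of_nonneg_right h10 hVy.le
            _ = _ := by ring
        calc _ ≤ ε0 ^ 2 / 8 * V y ^ 2 + ε0 ^ 2 / 8 * V y ^ 2 := add_le_add h5 h6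
          _ = _ := by ring
      have h2 : ‖∑ b ∈ range BB, ∑ a ∈ range T, G a * H b * (ff w y (a + T * b) : ℂ)‖ ^ 2 ≤ (ε0 / 2 * (N * V y)) ^ 2 := by
        refine hA.trans ?_
        have h3 : (T : ℝ) * BB ≤ N := by exact_mod_cast hTB
        calc _ ≤ ((T : ℝ) * BB) ^ 2 * (ε0 / 2 * V y) ^ 2 := mul_le_mul_of_nonneg_left h1 (by positivity)
          _ ≤ (N : ℝ) ^ 2 * (ε0 / 2 * V y) ^ 2 := by
              apply mul_le_mul_of_nonneg_right _ (by positivity)
              exact pow_le_pow_left₀ (by positivity) h3 2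
          _ = _ := by ring
      exact le_of_pow_le_pow_left₀ (by norm_num) (by positivity) h2
    have hB2 : ‖∑ x ∈ range (N % T), G ((T * BB + x) % T) * H ((T * BB + x) / T) * (ff w y (T * BB + x) : ℂ)‖ ≤ ε0 / 2 * (N * V y) := by
      have h1 : ‖∑ x ∈ range (N % T), G ((T * BB + x) % T) * H ((T * BB + x) / T) * (ff w y (T * BB + x) : ℂ)‖ ≤ T := by
        refine (norm_sum_le _ _).trans ?_
        calc ∑ x ∈ range (N % T), ‖G ((T * BB + x) % T) * H ((T * BB + x) / T) * (ff w y (T * BB + x) : ℂ)‖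
            ≤ ∑ _x ∈ range (N % T), (1 : ℝ) := by
              apply sum_le_sum
              intro x _
              rw [norm_mul, norm_mul, Complex.norm_real, Real.norm_eq_abs]
              exact mul_le_one₀ (mul_le_one₀ (hG _) (norm_nonneg _) (hH _)) (abs_nonneg _) (ff_abs w y _ hwy).1
          _ = ((N % T : ℕ) : ℝ) := by rw [sum_const, card_range, nsmul_eq_mul, mul_one]
          _ ≤ T := by exact_mod_cast hRT.le
      refine h1.trans ?_
      have h2 : (T : ℝ) ≤ u ^ 2 := le_trans (by exact_mod_cast hTs) hsu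
      have h3 : 4 ≤ ε0 * u := by
        rw [div_le_iff₀ hε0] at hu1
        linarith
      calc (T : ℝ) ≤ u ^ 2 := h2
        _ = u ^ 2 * 1 := by ring
        _ ≤ u ^ 2 * (ε0 * u / 2) := mul_le_mul_of_nonneg_left (by linarith) (by positivity)
        _ = ε0 / 2 * u ^ 3 * 1 := by ring
        _ ≤ ε0 / 2 * u ^ 3 * (V y * u) := mul_le_mul_of_nonneg_left hVu (by positivity)
        _ = ε0 / 2 * (u ^ 4 * V y) := by ring
        _ = _ := by rw [hu4]
    linarith
  · have h1 := shift_count 0 w y y N hwy (Or.inr rfl) (by omega) ε hεpos.le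
      (fun Q hQ => FLy Q hQ N (Nat.le_self_pow (by norm_num) N))
    simp only [add_zero] at h1
    exact h1.trans (mul_le_mul_of_nonneg_right (by linarith) hNV.le)

end Pool.Agent.H31.DG
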