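import Pool.Agent.H31.DG.Blk2

set_option autoImplicit false

/-! # Digits: automata, the sum of digits, and the sum of digits on residue classes -/

namespace Pool.Agent.H31.DG

open Finset Filter Topology Pool.Agent.H373R2.T7 Pool.Agent.H31.MF
open Pool.Agent.H807R2.Dav

/-- the digits of `n`, split after the `j` lowest ones -/
lemma digits_split (q : ℕ) (hq : 1 < q) (j n : ℕ) (h : 0 < n / q ^ j) :
    Nat.digits q n = (Nat.digits q (n % q ^ j) ++ List.replicate (j - (Nat.digits q (n % q ^ j)).length) 0) ++ Nat.digits q (n / q ^ j) := by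
  rw [Nat.digits_append_zeroes_append_digits hq h]
  have h1 : n % q ^ j < q ^ j := Nat.mod_lt _ (by positivity)
  have h2 : (Nat.digits q (n % q ^ j)).length ≤ j := by
    rw [Nat.digits_length_le_iff hq]
    exact h1
  have h3 : (Nat.digits q (n % q ^ j)).length + (j - (Nat.digits q (n % q ^ j)).length) = j := by omega
  rw [h3, Nat.mod_add_div]

/-- functions of the digits in base `q` with a bounded rank -/
def DRank (q m : ℕ) (F : ℕ → ℂ) : Prop := ∀ j : ℕ, ∃ G H : Fin m → ℕ → ℂ,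
  (∀ i n, ‖G i n‖ ≤ 1) ∧ (∀ i n, ‖H i n‖ ≤ 1) ∧ ∀ n, F n = ∑ i, G i (n % q ^ j) * H i (n / q ^ j)

lemma DRank_of {ι : Type*} [Fintype ι] (q : ℕ) (F : ℕ → ℂ)
    (h : ∀ j : ℕ, ∃ G H : ι → ℕ → ℂ, (∀ i n, ‖G i n‖ ≤ 1) ∧ (∀ i n, ‖H i n‖ ≤ 1) ∧ ∀ n, F n = ∑ i, G i (n % q ^ j) * H i (n / q ^ j)) :
    DRank q (Fintype.card ι) F := by
  intro j
  obtain ⟨G, H, h1, h2, h3⟩ := h j
  refine ⟨fun i => G ((Fintype.equivFin ι).symm i), fun i => H ((Fintype.equivFin ι).symm i), fun i n => h1 _ n, fun i n => h2 _ n, fun n => ?_⟩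
  rw [h3 n]
  exact (Equiv.sum_comp (Fintype.equivFin ι).symm (fun i => G i (n % q ^ j) * H i (n / q ^ j))).symm

/-- an automaton which reads the lowest digit first -/
lemma aut_low (q : ℕ) (hq : 1 < q) {σ : Type*} [Fintype σ] (δ : σ → ℕ → σ) (s₀ : σ) (τ : σ → ℂ) (hτ : ∀ s, ‖τ s‖ ≤ 1) :
    DRank q (Fintype.card σ + 1) (fun n => τ ((Nat.digits q n).foldl δ s₀)) := by
  classical
  rw [← Fintype.card_option]
  apply DRank_of
  intro j
  refine ⟨fun o a => match o with
      | none => τ ((Nat.digits q a).foldl δ s₀)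
      | some s => if (Nat.digits q a ++ List.replicate (j - (Nat.digits q a).length) 0).foldl δ s₀ = s then 1 else 0,
    fun o b => match o with
      | none => if b = 0 then 1 else 0
      | some s => if b = 0 then 0 else τ ((Nat.digits q b).foldl δ s), ?_, ?_, ?_⟩
  · intro o a
    cases o with
    | none => exact hτ _
    | some s => simp only; split_ifs <;> simp
  · intro o b
    cases o with
    | none => simp only; split_ifs <;> simp
    | some s =>
      simp only
      split_ifs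
      · simp
      · exact hτ _
  · intro n
    rw [Fintype.sum_option]
    simp only
    rcases Nat.eq_zero_or_pos (n / q ^ j) with hb | hb
    · rw [hb]
      have : n < q ^ j := by
        by_contra h
        push Not at h
        have := Nat.div_pos h (by positivity)
        omega
      rw [Nat.mod_eq_of_lt this]
      simp
    · simp only [if_neg hb.ne', mul_zero, zero_add]
      rw [digits_split q hq j n hb, List.foldl_append]
      simp

/-- an automaton which reads the highest digit first -/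
lemma aut_high (q : ℕ) (hq : 1 < q) {σ : Type*} [Fintype σ] (δ : σ → ℕ → σ) (s₀ : σ) (τ : σ → ℂ) (hτ : ∀ s, ‖τ s‖ ≤ 1) :
    DRank q (Fintype.card σ + 1) (fun n => τ ((Nat.digits q n).reverse.foldl δ s₀)) := by
  classical
  rw [← Fintype.card_option]
  apply DRank_of
  intro j
  refine ⟨fun o a => match o with
      | none => τ ((Nat.digits q a).reverse.foldl δ s₀)
      | some s => τ ((Nat.digits q a ++ List.replicate (j - (Nat.digits q a).length) 0).reverse.foldl δ s),
    fun o b => match o with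
      | none => if b = 0 then 1 else 0
      | some s => if b = 0 then 0 else (if (Nat.digits q b).reverse.foldl δ s₀ = s then 1 else 0), ?_, ?_, ?_⟩
  · intro o a
    cases o with
    | none => exact hτ _
    | some s => exact hτ _
  · intro o b
    cases o with
    | none => simp only; split_ifs <;> simp
    | some s => simp only; split_ifs <;> simp
  · intro n
    rw [Fintype.sum_option]
    simp only
    rcases Nat.eq_zero_or_pos (n / q ^ j) with hb | hb
    · rw [hb]
      have : n < q ^ j := by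
        by_contra h
        push Not at h
        have := Nat.div_pos h (by positivity)
        omega
      rw [Nat.mod_eq_of_lt this]
      simp
    · simp only [if_neg hb.ne', mul_zero, zero_add]
      rw [digits_split q hq j n hb, List.reverse_append, List.foldl_append]
      simp

/-! ## the sum of the digits -/

def sd (q n : ℕ) : ℕ := (Nat.digits q n).sum

lemma sd_split (q : ℕ) (hq : 1 < q) (j n : ℕ) : sd q n = sd q (n % q ^ j) + sd q (n / q ^ j) := by
  unfold sd
  rcases Nat.eq_zero_or_pos (n / q ^ j) with hb | hb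
  · rw [hb]
    have : n < q ^ j := by
      by_contra h
      push Not at h
      have := Nat.div_pos h (by positivity)
      omega
    rw [Nat.mod_eq_of_lt this]
    simp
  · conv_lhs => rw [digits_split q hq j n hb]
    rw [List.sum_append, List.sum_append, List.sum_replicate]
    simp

lemma sd_add (q : ℕ) (hq : 1 < q) (j a b : ℕ) (ha : a < q ^ j) : sd q (a + q ^ j * b) = sd q a + sd q b := by
  rw [sd_split q hq j (a + q ^ j * b), Nat.add_mul_mod_self_left, Nat.mod_eq_of_lt ha, Nat.add_mul_div_left _ _ (by positivity),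
    Nat.div_eq_of_lt ha, zero_add]

lemma sd_lt (q a : ℕ) (ha : a < q) : sd q a = a := by
  unfold sd
  rcases Nat.eq_zero_or_pos a with h | h
  · subst h; simp
  · rw [Nat.digits_of_lt q a h.ne' ha]; simp

lemma sd_rank (q : ℕ) (hq : 1 < q) (ζ : ℂ) (hζ : ‖ζ‖ = 1) : DRank q 1 (fun n => ζ ^ sd q n) := by
  intro j
  refine ⟨fun _ a => ζ ^ sd q a, fun _ b => ζ ^ sd q b, fun _ n => ?_, fun _ n => ?_, fun n => ?_⟩
  · rw [norm_pow, hζ, one_pow]
  · rw [norm_pow, hζ, one_pow]
  · rw [Fin.sum_univ_one, ← pow_add, ← sd_split q hq j n]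

lemma norm_one_add_lt (x : ℂ) (hx : ‖x‖ = 1) (h1 : x ≠ 1) : ‖1 + x‖ < 2 := by
  have h2 : Complex.normSq x = 1 := by rw [Complex.normSq_eq_norm_sq, hx]; norm_num
  rw [Complex.normSq_apply] at h2
  have h3 : Complex.normSq (1 + x) = 2 + 2 * x.re := by
    rw [Complex.normSq_apply]
    simp only [Complex.add_re, Complex.one_re, Complex.add_im, Complex.one_im]
    nlinarith
  have h4 : x.re < 1 := by
    by_contra h
    push Not at h
    have h5 : x.re = 1 := by nlinarith [mul_self_nonneg x.im]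
    have h6 : x.im = 0 := by
      rw [h5] at h2
      nlinarith [mul_self_nonneg x.im]
    exact h1 (Complex.ext h5 h6)
  have h5 : ‖1 + x‖ ^ 2 < 2 ^ 2 := by
    rw [← Complex.normSq_eq_norm_sq, h3]
    linarith
  exact lt_of_pow_lt_pow_left₀ 2 (by norm_num) h5

lemma geom_le (q : ℕ) (x : ℂ) (hx : ‖x‖ = 1) : ‖∑ d ∈ range q, x ^ d‖ ≤ q := by
  refine (norm_sum_le _ _).trans ?_
  simp only [norm_pow, hx, one_pow, sum_const, card_range, nsmul_eq_mul, mul_one, le_refl]

lemma geom_lt (q : ℕ) (hq : 2 ≤ q) (x : ℂ) (hx : ‖x‖ = 1) (h1 : x ≠ 1) : ‖∑ d ∈ range q, x ^ d‖ < q := by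
  obtain ⟨k, rfl⟩ : ∃ k, q = 2 + k := ⟨q - 2, by omega⟩
  rw [sum_range_add]
  have h2 : ∑ d ∈ range 2, x ^ d = 1 + x := by
    rw [sum_range_succ, sum_range_one, pow_zero, pow_one]
  rw [h2]
  refine lt_of_le_of_lt (norm_add_le _ _) ?_
  have h3 : ‖∑ d ∈ range k, x ^ (2 + d)‖ ≤ k := by
    refine (norm_sum_le _ _).trans ?_
    simp only [norm_pow, hx, one_pow, sum_const, card_range, nsmul_eq_mul, mul_one, le_refl]
  have h4 := norm_one_add_lt x hx h1
  push_cast
  linarith

/-- the exponential sum of the sum of digits factors -/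
lemma S_succ (q : ℕ) (hq : 1 < q) (ζ z : ℂ) (k : ℕ) :
    ∑ n ∈ range (q ^ (k + 1)), ζ ^ sd q n * z ^ n = (∑ d ∈ range q, (ζ * z) ^ d) * ∑ n ∈ range (q ^ k), ζ ^ sd q n * (z ^ q) ^ n := by
  rw [Nat.pow_succ, mul_comm (q ^ k) q, sum_blocks, mul_comm, sum_mul_sum]
  apply sum_congr rfl
  intro b _
  apply sum_congr rfl
  intro a ha
  rw [mem_range] at ha
  have h := sd_add q hq 1 a b (by rwa [pow_one])
  rw [pow_one] at h
  rw [h, sd_lt q a ha, pow_add, pow_add, pow_mul, mul_pow]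
  ring

lemma S_bound (q : ℕ) (hq : 2 ≤ q) (ζ : ℂ) (hζ : ‖ζ‖ = 1) (hζ1 : ζ ^ (q - 1) ≠ 1) (W : ℕ) (hW : 1 ≤ W) :
    ∃ κ : ℝ, 0 ≤ κ ∧ κ < (q : ℝ) ^ 2 ∧ ∀ k : ℕ, ∀ z : ℂ, z ^ W = 1 → ‖∑ n ∈ range (q ^ (2 * k)), ζ ^ sd q n * z ^ n‖ ≤ κ ^ k := by
  classical
  set f : ℂ → ℝ := fun z => ‖∑ d ∈ range q, (ζ * z) ^ d‖ * ‖∑ d ∈ range q, (ζ * z ^ q) ^ d‖ with hf
  have hq0 : (0 : ℝ) < q := by exact_mod_cast (by omega : 0 < q)
  have hlt : ∀ z : ℂ, ‖z‖ = 1 → f z < (q : ℝ) ^ 2 := by
    intro z hz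
    have n1 : ‖ζ * z‖ = 1 := by rw [norm_mul, hζ, hz, one_mul]
    have n2 : ‖ζ * z ^ q‖ = 1 := by rw [norm_mul, norm_pow, hζ, hz, one_pow, one_mul]
    have g1 := geom_le q _ n1
    have g2 := geom_le q _ n2
    rw [hf, pow_two]
    by_cases h1 : ζ * z = 1
    · by_cases h2 : ζ * z ^ q = 1
      · exfalso
        apply hζ1
        have h3 : (ζ * z) ^ q = 1 := by rw [h1, one_pow]
        have hζ0 : ζ ≠ 0 := by intro h; rw [h, norm_zero] at hζ; norm_num at hζ
        have h4 : ζ ^ (q - 1) * (ζ * z ^ q) = 1 := by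
          calc ζ ^ (q - 1) * (ζ * z ^ q) = (ζ ^ (q - 1) * ζ) * z ^ q := by ring
            _ = ζ ^ q * z ^ q := by rw [← pow_succ]; congr 2; omega
            _ = 1 := by rw [← mul_pow, h3]
        rwa [h2, mul_one] at h4
      · have g3 := geom_lt q hq _ n2 h2
        calc ‖∑ d ∈ range q, (ζ * z) ^ d‖ * ‖∑ d ∈ range q, (ζ * z ^ q) ^ d‖ ≤ q * ‖∑ d ∈ range q, (ζ * z ^ q) ^ d‖ :=
              mul_le_mul_of_nonneg_right g1 (norm_nonneg _)
          _ < q * q := mul_lt_mul_of_pos_left g3 hq0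
    · have g3 := geom_lt q hq _ n1 h1
      calc ‖∑ d ∈ range q, (ζ * z) ^ d‖ * ‖∑ d ∈ range q, (ζ * z ^ q) ^ d‖ ≤ ‖∑ d ∈ range q, (ζ * z) ^ d‖ * q :=
            mul_le_mul_of_nonneg_left g2 (norm_nonneg _)
        _ < q * q := mul_lt_mul_of_pos_right g3 hq0
  have hroot : ∀ z : ℂ, z ^ W = 1 → ‖z‖ = 1 := fun z hz => Complex.norm_eq_one_of_pow_eq_one hz (by omega)
  set R := Polynomial.nthRootsFinset W (1 : ℂ) with hR
  have hmem : ∀ z : ℂ, z ∈ R ↔ z ^ W = 1 := fun z => Polynomial.mem_nthRootsFinset (by omega) 1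
  have hRne : R.Nonempty := ⟨1, (hmem 1).2 (one_pow _)⟩
  obtain ⟨z0, hz0, hmax⟩ := exists_max_image R f hRne
  refine ⟨f z0, by rw [hf]; positivity, hlt z0 (hroot z0 ((hmem z0).1 hz0)), ?_⟩
  intro k
  induction k with
  | zero =>
    intro z _
    simp [sd]
  | succ k ih =>
    intro z hz
    have e : 2 * (k + 1) = (2 * k + 1) + 1 := by ring
    rw [e, S_succ q (by omega) ζ z, S_succ q (by omega) ζ (z ^ q), norm_mul, norm_mul, ← mul_assoc, pow_succ, mul_comm (f z0 ^ k)]
    have h1 : ((z ^ q) ^ q) ^ W = 1 := by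
      rw [← pow_mul, ← pow_mul, show q * (q * W) = W * (q * q) by ring, pow_mul, hz, one_pow]
    apply mul_le_mul _ (ih _ h1) (norm_nonneg _) (by rw [hf]; positivity)
    exact hmax z ((hmem z).2 hz)

/-- sums over one class -/
lemma class_sum_le' (h : ℕ → ℂ) (S : Finset ℕ) (W b : ℕ) (hW : 1 ≤ W) (K : ℝ) (hK : ∀ z : ℂ, z ^ W = 1 → ‖∑ n ∈ S, h n * z ^ n‖ ≤ K) :
    ‖∑ n ∈ S.filter (fun n : ℕ => (W : ℤ) ∣ (n : ℤ) - b), h n‖ ≤ K := by
  have hW0 : (0 : ℝ) < W := by exact_mod_cast hW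
  have e1 : (W : ℂ) * ∑ n ∈ S.filter (fun n : ℕ => (W : ℤ) ∣ (n : ℤ) - b), h n =
      ∑ t ∈ range W, ee (-((t : ℝ) * (b / W))) * ∑ n ∈ S, h n * ee ((n : ℝ) * (t / W)) := by
    have e2 : ∀ n ∈ S, (if (W : ℤ) ∣ (n : ℤ) - b then (W : ℂ) * h n else 0) =
        ∑ t ∈ range W, ee (-((t : ℝ) * (b / W))) * (h n * ee ((n : ℝ) * (t / W))) := by
      intro n _
      have h1 := orth W hW ((n : ℤ) - b)
      have h2 : ∑ t ∈ range W, ee (-((t : ℝ) * (b / W))) * (h n * ee ((n : ℝ) * (t / W))) =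
          h n * ∑ t ∈ range W, ee ((t : ℝ) * ((((n : ℤ) - b : ℤ) : ℝ) / W)) := by
        rw [mul_sum]
        apply sum_congr rfl
        intro t _
        have h3 : ee ((t : ℝ) * ((((n : ℤ) - b : ℤ) : ℝ) / W)) = ee (-((t : ℝ) * (b / W))) * ee ((n : ℝ) * (t / W)) := by
          rw [← ee_add]
          congr 1
          push_cast
          field_simp
          ring
        rw [h3]
        ring
      rw [h2, h1]
      split_ifs
      · ring
      · simp
    rw [sum_filter, mul_sum]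
    have e3 : ∀ n ∈ S, (W : ℂ) * (if (W : ℤ) ∣ (n : ℤ) - b then h n else 0) =
        (if (W : ℤ) ∣ (n : ℤ) - b then (W : ℂ) * h n else 0) := by
      intro n _
      split_ifs <;> simp
    rw [sum_congr rfl e3, sum_congr rfl e2, sum_comm]
    apply sum_congr rfl
    intro t _
    rw [mul_sum]
  have epow : ∀ (x : ℝ) (n : ℕ), ee ((n : ℝ) * x) = ee x ^ n := by
    intro x n
    induction n with
    | zero =>
      have : ee 0 = 1 := by
        have h1 : ee 0 * ee 0 = ee 0 := by rw [← ee_add, add_zero]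
        have h2 : ee 0 ≠ 0 := by
          intro h
          have := norm_ee 0
          rw [h, norm_zero] at this
          norm_num at this
        exact mul_left_cancel₀ h2 (by rw [h1, mul_one])
      simpa using this
    | succ n ih =>
      push_cast
      rw [add_mul, one_mul, ee_add, ih, pow_succ]
  have e4 : (W : ℝ) * ‖∑ n ∈ S.filter (fun n : ℕ => (W : ℤ) ∣ (n : ℤ) - b), h n‖ ≤ W * K := by
    have e5 : (W : ℝ) * ‖∑ n ∈ S.filter (fun n : ℕ => (W : ℤ) ∣ (n : ℤ) - b), h n‖ =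
        ‖(W : ℂ) * ∑ n ∈ S.filter (fun n : ℕ => (W : ℤ) ∣ (n : ℤ) - b), h n‖ := by
      rw [norm_mul, Complex.norm_natCast]
    rw [e5, e1]
    refine (norm_sum_le _ _).trans ?_
    calc ∑ t ∈ range W, ‖ee (-((t : ℝ) * (b / W))) * ∑ n ∈ S, h n * ee ((n : ℝ) * (t / W))‖
        ≤ ∑ _t ∈ range W, K := by
          apply sum_le_sum
          intro t _
          rw [norm_mul, norm_ee, one_mul]
          have e6 : ∀ n ∈ S, h n * ee ((n : ℝ) * (t / W)) = h n * (ee (t / W)) ^ n := by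
            intro n _
            rw [epow]
          rw [sum_congr rfl e6]
          apply hK
          rw [← epow]
          have e7 : (W : ℝ) * ((t : ℝ) / W) = ((t : ℕ) : ℝ) * 1 := by field_simp
          rw [e7, epow]
          have e8 : ee 1 = 1 := by
            unfold ee
            simp
          rw [e8, one_pow]
      _ = W * K := by rw [sum_const, card_range, nsmul_eq_mul]
  exact le_of_mul_le_mul_left e4 hW0

/-- the exponential of the sum of digits on a shifted block and a set of classes -/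
lemma block_bound (q : ℕ) (hq : 2 ≤ q) (ζ : ℂ) (hζ : ‖ζ‖ = 1) (W : ℕ) (hW : 1 ≤ W) (k : ℕ) (K : ℝ)
    (hK : ∀ z : ℂ, z ^ W = 1 → ‖∑ n ∈ range (q ^ k), ζ ^ sd q n * z ^ n‖ ≤ K) (P : ℕ → Prop) [DecidablePred P] (hP : ∀ n, P n ↔ P (n % W)) :
    ‖∑ a ∈ range (q ^ k), ζ ^ sd q a * (if P a then 1 else 0)‖ ≤ W * K := by
  classical
  have hK0 : 0 ≤ K := (norm_nonneg _).trans (hK 1 (one_pow _))
  have e1 : ∑ a ∈ range (q ^ k), ζ ^ sd q a * (if P a then 1 else 0) =
      ∑ b ∈ (range W).filter (fun b => P b), ∑ a ∈ (range (q ^ k)).filter (fun n : ℕ => (W : ℤ) ∣ (n : ℤ) - b), ζ ^ sd q a := by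
    have e2 : ∀ b ∈ (range W).filter (fun b => P b), ∑ n ∈ (range (q ^ k)).filter (fun n : ℕ => (W : ℤ) ∣ (n : ℤ) - b), ζ ^ sd q n =
        ∑ n ∈ range (q ^ k), if (W : ℤ) ∣ (n : ℤ) - b then ζ ^ sd q n else 0 := fun b _ => sum_filter _ _
    rw [sum_congr rfl e2, sum_comm]
    apply sum_congr rfl
    intro n _
    have e3 : ∀ b ∈ (range W).filter (fun b => P b), (if (W : ℤ) ∣ (n : ℤ) - b then ζ ^ sd q n else 0) = if b = n % W then ζ ^ sd q n else 0 := by
      intro b hb
      rw [mem_filter, mem_range] at hb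
      have : ((W : ℤ) ∣ (n : ℤ) - b) ↔ b = n % W := by
        rw [← Nat.modEq_iff_dvd]
        constructor
        · intro h
          have h1 : b % W = n % W := h
          rwa [Nat.mod_eq_of_lt hb.1] at h1
        · intro h
          show b % W = n % W
          rw [h, Nat.mod_mod]
      simp only [this]
    rw [sum_congr rfl e3, sum_ite_eq']
    have e4 : (n % W ∈ (range W).filter (fun b => P b)) ↔ P n := by
      rw [mem_filter, mem_range, hP n]
      exact ⟨fun h => h.2, fun h => ⟨Nat.mod_lt _ hW, h⟩⟩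
    simp only [e4]
    split_ifs <;> simp
  rw [e1]
  refine (norm_sum_le _ _).trans ?_
  calc ∑ b ∈ (range W).filter (fun b => P b), ‖∑ n ∈ (range (q ^ k)).filter (fun n : ℕ => (W : ℤ) ∣ (n : ℤ) - b), ζ ^ sd q n‖
      ≤ ∑ _b ∈ (range W).filter (fun b => P b), K :=
        sum_le_sum fun b _ => class_sum_le' (fun n => ζ ^ sd q n) (range (q ^ k)) W b hW K hK
    _ ≤ W * K := by
        rw [sum_const, nsmul_eq_mul]
        apply mul_le_mul_of_nonneg_right _ hK0
        have := card_filter_le (range W) (fun b => P b)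
        rw [card_range] at this
        exact_mod_cast this

/-- **Gelfond**: the sum of digits on the residue classes -/
theorem dig_classes (q : ℕ) (hq : 2 ≤ q) (ζ : ℂ) (hζ : ‖ζ‖ = 1) (hζ1 : ζ ^ (q - 1) ≠ 1) (w : ℕ) (δ : ℝ) (hδ : 0 < δ) :
    ∀ᶠ N : ℕ in atTop, ‖∑ n ∈ range N, ζ ^ sd q n * (ind w n : ℂ)‖ ≤ δ * N := by
  classical
  set W := ∏ p ∈ pz w, p with hW
  have hW1 : 1 ≤ W := Nat.one_le_iff_ne_zero.2 (prod_ne_zero_iff.2 fun p hp => (mem_pz.1 hp).2.ne_zero)
  have hW0 : (0 : ℝ) < W := by exact_mod_cast hW1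
  obtain ⟨κ, hκ0, hκ1, hκ⟩ := S_bound q hq ζ hζ hζ1 W hW1
  have hq0 : (0 : ℝ) < q := by exact_mod_cast (by omega : 0 < q)
  -- the choice of `k`
  obtain ⟨k, hk⟩ : ∃ k : ℕ, W * (κ / (q : ℝ) ^ 2) ^ k ≤ δ / 2 := by
    have h1 : κ / (q : ℝ) ^ 2 < 1 := by rw [div_lt_one (by positivity)]; exact hκ1
    obtain ⟨k, hk⟩ := exists_pow_lt_of_lt_one (show 0 < δ / 2 / W by positivity) h1
    refine ⟨k, ?_⟩
    rw [lt_div_iff₀ hW0] at hk
    linarith
  obtain ⟨n0, hn0⟩ := exists_nat_ge (2 * (q : ℝ) ^ (2 * k) / δ)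
  filter_upwards [eventually_ge_atTop n0] with N hN
  set T := q ^ (2 * k) with hT
  have hT1 : 1 ≤ T := Nat.one_le_pow _ _ (by omega)
  have hT0 : (0 : ℝ) < T := by exact_mod_cast hT1
  have hR : N = T * (N / T) + N % T := (Nat.div_add_mod N T).symm
  have hRT : N % T < T := Nat.mod_lt _ (by omega)
  have e1 : ∑ n ∈ range N, ζ ^ sd q n * (ind w n : ℂ) =
      (∑ b ∈ range (N / T), ∑ a ∈ range T, ζ ^ sd q (a + T * b) * (ind w (a + T * b) : ℂ)) +
      ∑ x ∈ range (N % T), ζ ^ sd q (T * (N / T) + x) * (ind w (T * (N / T) + x) : ℂ) := by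
    conv_lhs => rw [hR]
    rw [sum_range_add, sum_blocks]
  rw [e1]
  refine (norm_add_le _ _).trans ?_
  have h1 : ‖∑ b ∈ range (N / T), ∑ a ∈ range T, ζ ^ sd q (a + T * b) * (ind w (a + T * b) : ℂ)‖ ≤ δ / 2 * N := by
    refine (norm_sum_le _ _).trans ?_
    calc ∑ b ∈ range (N / T), ‖∑ a ∈ range T, ζ ^ sd q (a + T * b) * (ind w (a + T * b) : ℂ)‖
        ≤ ∑ _b ∈ range (N / T), (W * κ ^ k : ℝ) := by
          apply sum_le_sum
          intro b _
          have e2 : ∑ a ∈ range T, ζ ^ sd q (a + T * b) * (ind w (a + T * b) : ℂ) =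
              ζ ^ sd q b * ∑ a ∈ range T, ζ ^ sd q a * (if Rgh w (a + T * b) then 1 else 0) := by
            rw [mul_sum]
            apply sum_congr rfl
            intro a ha
            rw [mem_range] at ha
            rw [hT, sd_add q (by omega) (2 * k) a b ha, pow_add]
            unfold ind
            split_ifs <;> push_cast <;> ring
          rw [e2, norm_mul, norm_pow, hζ, one_pow, one_mul]
          apply block_bound q hq ζ hζ W hW1 (2 * k) (κ ^ k) (hκ k) (fun a => Rgh w (a + T * b))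
          intro n
          have h2 := Rgh_mod w (n + T * b)
          have h3 := Rgh_mod w (n % W + T * b)
          rw [← hW] at h2 h3
          rw [Nat.mod_add_mod] at h3
          exact h2.trans h3.symm
      _ = (N / T : ℕ) * (W * κ ^ k) := by rw [sum_const, card_range, nsmul_eq_mul]
      _ ≤ (N / T : ℝ) * (W * κ ^ k) := by
          apply mul_le_mul_of_nonneg_right _ (by positivity)
          exact Nat.cast_div_le
      _ = N * (W * (κ / (q : ℝ) ^ 2) ^ k) := by
          rw [hT, div_pow, ← pow_mul]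
          push_cast
          ring
      _ ≤ N * (δ / 2) := mul_le_mul_of_nonneg_left hk (Nat.cast_nonneg _)
      _ = _ := by ring
  have h2 : ‖∑ x ∈ range (N % T), ζ ^ sd q (T * (N / T) + x) * (ind w (T * (N / T) + x) : ℂ)‖ ≤ δ / 2 * N := by
    refine (norm_sum_le _ _).trans ?_
    calc ∑ x ∈ range (N % T), ‖ζ ^ sd q (T * (N / T) + x) * (ind w (T * (N / T) + x) : ℂ)‖
        ≤ ∑ _x ∈ range (N % T), (1 : ℝ) := by
          apply sum_le_sum
          intro x _
          rw [norm_mul, norm_pow, hζ, one_pow, one_mul, Complex.norm_real, Real.norm_eq_abs, abs_of_nonneg (ind_nonneg _ _)]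
          exact ind_le_one _ _
      _ = ((N % T : ℕ) : ℝ) := by rw [sum_const, card_range, nsmul_eq_mul, mul_one]
      _ ≤ T := by exact_mod_cast hRT.le
      _ ≤ δ / 2 * N := by
          have h3 : 2 * (q : ℝ) ^ (2 * k) / δ ≤ N := hn0.trans (by exact_mod_cast hN)
          rw [div_le_iff₀ hδ] at h3
          rw [hT]
          push_cast
          linarith
  linarith

end Pool.Agent.H31.DG
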